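import Mathlib

set_option autoImplicit false

namespace Pool.Agent.P.MP_bed792_al

variable {G : Type*} [Group G]

/-- `g` is a product of at most `L` elements of `S` or inverses of elements of `S`. -/
def Len (S : Set G) (L : ℕ) (g : G) : Prop :=
  ∃ l : List G, l.length ≤ L ∧ (∀ x ∈ l, x ∈ S ∨ x⁻¹ ∈ S) ∧ l.prod = g

namespace Len

variable {S T : Set G} {L L' : ℕ} {g g' : G}

theorem one (S : Set G) (L : ℕ) : Len S L 1 := ⟨[], by simp, by simp, rfl⟩

theorem of_mem (h : g ∈ S ∨ g⁻¹ ∈ S) : Len S 1 g := ⟨[g], by simp, by simpa using h, by simp⟩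

theorem mono (h : Len S L g) (hL : L ≤ L') : Len S L' g := by
  obtain ⟨l, h1, h2, h3⟩ := h
  exact ⟨l, h1.trans hL, h2, h3⟩

theorem mul (h : Len S L g) (h' : Len S L' g') : Len S (L + L') (g * g') := by
  obtain ⟨l, h1, h2, h3⟩ := h
  obtain ⟨l', h1', h2', h3'⟩ := h'
  refine ⟨l ++ l', by simp; omega, ?_, by simp [h3, h3']⟩
  intro x hx
  rcases List.mem_append.1 hx with hx | hx
  exacts [h2 x hx, h2' x hx]

theorem inv (h : Len S L g) : Len S L g⁻¹ := by
  obtain ⟨l, h1, h2, h3⟩ := h
  refine ⟨(l.map fun x => x⁻¹).reverse, by simpa using h1, ?_, by rw [← List.prod_inv_reverse, h3]⟩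
  intro x hx
  simp only [List.mem_reverse, List.mem_map] at hx
  obtain ⟨y, hy, rfl⟩ := hx
  simpa [or_comm] using h2 y hy

theorem conj {h : G} (hh : Len S L h) (hg : Len S L' g) : Len S (2 * L + L') (h * g * h⁻¹) :=
  ((hh.mul hg).mul hh.inv).mono (by omega)

theorem zero_iff : Len S 0 g ↔ g = 1 := by
  constructor
  · rintro ⟨l, h1, -, h3⟩
    have : l = [] := List.length_eq_zero_iff.1 (by omega)
    simp [← h3, this]
  · rintro rfl
    exact one S 0

theorem succ_iff : Len S (L + 1) g ↔
    Len S L g ∨ ∃ s h, (s ∈ S ∨ s⁻¹ ∈ S) ∧ Len S L h ∧ g = s * h := by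
  constructor
  · rintro ⟨l, h1, h2, h3⟩
    cases l with
    | nil => exact Or.inl ⟨[], by simp, by simp, h3⟩
    | cons s l =>
      refine Or.inr ⟨s, l.prod, h2 s (by simp), ⟨l, by simpa using h1, fun x hx => h2 x (by simp [hx]),
        rfl⟩, by simp [← h3]⟩
  · rintro (h | ⟨s, h, hs, hh, rfl⟩)
    · exact h.mono (by omega)
    · exact ((of_mem hs).mul hh).mono (by omega)

theorem comp {a b : ℕ} (hT : ∀ t ∈ T, Len S a t) (h : Len T b g) : Len S (a * b) g := by
  induction b generalizing g with
  | zero => rw [zero_iff.1 h]; exact one _ _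
  | succ b ih =>
    rcases succ_iff.1 h with h | ⟨s, k, hs, hk, rfl⟩
    · exact (ih h).mono (Nat.mul_le_mul_left _ (by omega))
    · have h1 : Len S a s := by
        rcases hs with hs | hs
        · exact hT s hs
        · simpa using (hT _ hs).inv
      exact (h1.mul (ih hk)).mono (by rw [Nat.mul_succ]; omega)

theorem pow (h : Len S L g) (m : ℕ) : Len S (m * L) (g ^ m) := by
  induction m with
  | zero => simpa using one S 0
  | succ m ih => rw [pow_succ, Nat.succ_mul]; exact ih.mul h

theorem mem_closure (h : Len S L g) : g ∈ Subgroup.closure S := by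
  obtain ⟨l, -, h2, rfl⟩ := h
  refine Subgroup.list_prod_mem _ fun x hx => ?_
  rcases h2 x hx with h | h
  · exact Subgroup.subset_closure h
  · simpa using (Subgroup.closure S).inv_mem (Subgroup.subset_closure h)

end Len

theorem exists_len {S : Set G} {g : G} (h : g ∈ Subgroup.closure S) : ∃ L, Len S L g := by
  induction h using Subgroup.closure_induction with
  | mem x hx => exact ⟨1, Len.of_mem (Or.inl hx)⟩
  | one => exact ⟨0, Len.one _ _⟩
  | mul x y _ _ hx hy =>
    obtain ⟨a, ha⟩ := hx
    obtain ⟨b, hb⟩ := hy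
    exact ⟨_, ha.mul hb⟩
  | inv x _ hx =>
    obtain ⟨a, ha⟩ := hx
    exact ⟨_, ha.inv⟩

theorem len_stable {S : Set G} {j : ℕ} (hj : ∀ g, Len S (j + 1) g → Len S j g) (i : ℕ) :
    ∀ g, Len S i g → Len S j g := by
  induction i with
  | zero => intro g h; exact h.mono (Nat.zero_le _)
  | succ i ih =>
    intro g h
    rcases Len.succ_iff.1 h with h | ⟨s, k, hs, hk, rfl⟩
    · exact ih g h
    · exact hj _ (Len.succ_iff.2 (Or.inr ⟨s, k, hs, ih k hk, rfl⟩))

/-- A finite group has diameter at most its order. -/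
theorem len_card {S : Set G} (K : Subgroup G) [Finite K] (hS : S ⊆ K) {g : G}
    (h : g ∈ Subgroup.closure S) : Len S (Nat.card K) g := by
  have hsub : ∀ j, {g | Len S j g} ⊆ (K : Set G) := fun j g hg =>
    (Subgroup.closure_le K).2 hS (Len.mem_closure hg)
  have hfin : (K : Set G).Finite := Set.toFinite _
  have key : ∀ j : ℕ, (∀ i g, Len S i g → Len S j g) ∨ j + 1 ≤ {g | Len S j g}.ncard := by
    intro j
    induction j with
    | zero =>
      right
      exact (Set.ncard_pos (hfin.subset (hsub 0))).2 ⟨1, Len.one _ _⟩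
    | succ j ih =>
      by_cases hj : ∀ g, Len S (j + 1) g → Len S j g
      · exact Or.inl fun i g hg => (len_stable hj i g hg).mono (by omega)
      · rcases ih with ih | ih
        · exact absurd (ih (j + 1)) hj
        · right
          have : {g | Len S j g} ⊂ {g | Len S (j + 1) g} :=
            ⟨fun g hg => Len.mono hg (by omega), fun hh => hj fun g hg => hh hg⟩
          have := Set.ncard_lt_ncard this (hfin.subset (hsub _))
          omega
  obtain ⟨L, hL⟩ := exists_len h
  rcases key (Nat.card K) with h1 | h1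
  · exact h1 L g hL
  · have := Set.ncard_le_ncard (hsub (Nat.card K)) hfin
    rw [← Nat.card_coe_set_eq (K : Set G)] at this
    simp only [SetLike.coe_sort_coe] at this
    omega

/-- Schreier: if every element is a short element times an element of a small subgroup, the
diameter is small. -/
theorem len_schreier {S : Set G} (hS : Subgroup.closure S = ⊤) (K : Subgroup G) [Finite K] {L : ℕ}
    (hK : ∀ g : G, ∃ x, Len S L x ∧ x⁻¹ * g ∈ K) (g : G) :
    Len S (L + (2 * L + 1) * Nat.card K) g := by
  set T : Set G := {k | k ∈ K ∧ Len S (2 * L + 1) k} with hT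
  have key : ∀ i g, Len S i g → ∃ x, Len S L x ∧ x⁻¹ * g ∈ Subgroup.closure T := by
    intro i
    induction i with
    | zero =>
      intro g hg
      rw [Len.zero_iff.1 hg]
      exact ⟨1, Len.one _ _, by simp⟩
    | succ i ih =>
      intro g hg
      rcases Len.succ_iff.1 hg with hg | ⟨s, k, hs, hk, rfl⟩
      · exact ih g hg
      · obtain ⟨x, hx, hxk⟩ := ih k hk
        obtain ⟨y, hy, hyk⟩ := hK (s * x)
        refine ⟨y, hy, ?_⟩
        have h1 : y⁻¹ * (s * x) ∈ T :=
          ⟨hyk, (hy.inv.mul ((Len.of_mem hs).mul hx)).mono (by omega)⟩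
        have : y⁻¹ * (s * k) = y⁻¹ * (s * x) * (x⁻¹ * k) := by group
        rw [this]
        exact Subgroup.mul_mem _ (Subgroup.subset_closure h1) hxk
  obtain ⟨i, hi⟩ := exists_len (S := S) (g := g) (hS ▸ Subgroup.mem_top g)
  obtain ⟨x, hx, hxg⟩ := key i g hi
  have h2 := Len.comp (fun t ht => ht.2) (len_card K (fun t (ht : t ∈ T) => ht.1) hxg)
  simpa using hx.mul h2

/-- If a length-like predicate is additive and holds on multiples of elements of a set, it holds
on the span. -/
theorem span_short {K M : Type*} [Field K] [AddCommGroup M] [Module K M] [Module.Finite K M]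
    (R : ℕ → M → Prop) (hmono : ∀ a b z, a ≤ b → R a z → R b z) (h0 : R 0 0)
    (hadd : ∀ a b z w, R a z → R b w → R (a + b) (z + w)) (A : Set M) (l : ℕ)
    (hA : ∀ (c : K), ∀ z ∈ A, R l (c • z)) {z : M} (hz : z ∈ Submodule.span K A) :
    R (Module.finrank K M * l) z := by
  classical
  obtain ⟨t, hts, hcard, hspan, -⟩ := Submodule.exists_finset_span_eq_linearIndepOn K A
  rw [← hspan, Submodule.mem_span_finset] at hz
  obtain ⟨f, -, rfl⟩ := hz
  have key : ∀ u : Finset M, (u : Set M) ⊆ A → R (u.card * l) (∑ a ∈ u, f a • a) := by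
    intro u
    induction u using Finset.induction_on with
    | empty => intro _; simpa using h0
    | insert a u ha ih =>
      intro hu
      rw [Finset.sum_insert ha, Finset.card_insert_of_notMem ha, Nat.succ_mul, add_comm (u.card * l)]
      exact hadd _ _ _ _ (hA _ a (hu (by simp))) (ih fun x hx => hu (by simp [hx]))
  refine hmono _ _ _ (Nat.mul_le_mul_right _ ?_) (key t hts)
  rw [hcard]
  exact Submodule.finrank_le _

end Pool.Agent.P.MP_bed792_al
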