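import Mathlib

set_option autoImplicit false

open Matrix

namespace Pool.Agent.P.MP_bed792_al

/-- `I` is a full classical group: the general linear group, or the isometry group of a
nondegenerate alternating form, of a nondegenerate hermitian form, or of a quadratic form
`x ↦ xᵀ A x` whose polar form is nondegenerate. -/
def IsClassical {n : ℕ} {F : Type} [Field F] (I : Subgroup (GL (Fin n) F)) : Prop :=
  I = ⊤ ∨
  (∃ J : Matrix (Fin n) (Fin n) F, J.det ≠ 0 ∧ Jᵀ = -J ∧ (∀ i, J i i = 0) ∧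
    ∀ g : GL (Fin n) F, g ∈ I ↔ g.1ᵀ * J * g.1 = J) ∨
  (∃ (σ : F →+* F) (J : Matrix (Fin n) (Fin n) F), σ ≠ RingHom.id F ∧ (∀ x, σ (σ x) = x) ∧
    J.det ≠ 0 ∧ Jᵀ = J.map σ ∧ ∀ g : GL (Fin n) F, g ∈ I ↔ g.1ᵀ * J * g.1.map σ = J) ∨
  (∃ A : Matrix (Fin n) (Fin n) F, (A + Aᵀ).det ≠ 0 ∧ ∀ g : GL (Fin n) F, g ∈ I ↔
    ∀ x : Fin n → F, (g.1 *ᵥ x) ⬝ᵥ (A *ᵥ (g.1 *ᵥ x)) = x ⬝ᵥ (A *ᵥ x))

end Pool.Agent.P.MP_bed792_al
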