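import Pool.Agent.P.MP_bed792_al.Lin

set_option autoImplicit false

open Module

namespace Pool.Agent.P.MP_bed792_al

theorem final_bound {n e p k M a b c j : ℕ} (hn : 1 ≤ n) (he : 1 ≤ e) (hp : 1 ≤ p) (hk : 1 ≤ k)
    (hM : M ≤ a * k) (hc : c ≤ 2 ^ b) :
    c * (((n * e) ^ 2 + 2) ^ (p * (3 * e * M ^ 2))) ^ j ≤
      (2 * n * e) ^ ((6 * j * a ^ 2 + b) * k ^ 2 * p * e) := by
  have hN : 1 ≤ n * e := Nat.mul_pos hn he
  have h1 : (n * e) ^ 2 + 2 ≤ (2 * n * e) ^ 2 := by rw [mul_assoc]; nlinarith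
  have h2 : 1 ≤ k ^ 2 * p * e := Nat.mul_pos (Nat.mul_pos (by positivity) hp) he
  have h3 : c ≤ (2 * n * e) ^ (b * (k ^ 2 * p * e)) :=
    hc.trans ((Nat.pow_le_pow_right (by omega) (Nat.le_mul_of_pos_right _ h2)).trans
      (Nat.pow_le_pow_left (by rw [mul_assoc]; omega) _))
  have h4 : (((n * e) ^ 2 + 2) ^ (p * (3 * e * M ^ 2))) ^ j ≤
      (2 * n * e) ^ (6 * j * a ^ 2 * (k ^ 2 * p * e)) := by
    refine (Nat.pow_le_pow_left (Nat.pow_le_pow_left h1 _) _).trans ?_
    rw [← pow_mul, ← pow_mul]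
    refine Nat.pow_le_pow_right (by rw [mul_assoc]; omega) ?_
    calc 2 * (p * (3 * e * M ^ 2) * j) = 6 * j * p * e * M ^ 2 := by ring
      _ ≤ 6 * j * p * e * (a * k) ^ 2 := Nat.mul_le_mul_left _ (Nat.pow_le_pow_left hM 2)
      _ = _ := by ring
  refine (Nat.mul_le_mul h3 h4).trans (le_of_eq ?_)
  rw [← pow_add]
  congr 1
  ring

/-- The natural representation of a matrix group. -/
def stdRep {n : ℕ} {F : Type*} [Field F] (K : Subgroup (GL (Fin n) F)) :
    Representation F K (Fin n → F) where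
  toFun g := Matrix.toLin' g.1.1
  map_one' := Matrix.toLin'_one
  map_mul' g h := Matrix.toLin'_mul g.1.1 h.1.1

theorem stdRep_inj {n : ℕ} {F : Type*} [Field F] (K : Subgroup (GL (Fin n) F)) :
    Function.Injective (stdRep K) :=
  fun _ _ h => Subtype.ext (Units.ext (Matrix.toLin'.injective h))

theorem exists_gl {n : ℕ} {F : Type*} [Field F] (f : (Fin n → F) →ₗ[F] (Fin n → F))
    (hf : Function.Injective f) : ∃ g : GL (Fin n) F, Matrix.toLin' g.1 = f := by
  have h : IsUnit f :=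
    (Module.End.isUnit_iff f).2 ⟨hf, LinearMap.injective_iff_surjective.1 hf⟩
  obtain ⟨g, hg⟩ := h.map (Matrix.toLinAlgEquiv' (R := F) (n := Fin n)).symm
  exact ⟨g, by rw [hg]; exact Matrix.toLin'_toMatrix' f⟩

theorem rank_eq {n : ℕ} {F : Type*} [Field F] {K : Subgroup (GL (Fin n) F)} (g : K) (c : F) :
    finrank F (LinearMap.range (stdRep K g - c • LinearMap.id)) = (g.1.1 - c • 1).rank := by
  have : stdRep K g - c • LinearMap.id = (g.1.1 - c • 1).mulVecLin := by
    rw [← Matrix.toLin'_apply', map_sub, map_smul, Matrix.toLin'_one]; rfl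
  rw [this, Matrix.rank]

theorem pos_of_noncentral {G : Type*} [Group G] {F : Type*} [Field F] {V : Type*} [AddCommGroup V]
    [Module F V] [Module.Finite F V] {ρ : Representation F G V} (hinj : Function.Injective ρ)
    {g : G} (hc : ∃ x, x * g ≠ g * x) {c : F} {k : ℕ}
    (hk : finrank F (LinearMap.range (ρ g - c • LinearMap.id)) ≤ k) :
    1 ≤ k ∧ 1 ≤ finrank F V := by
  have : finrank F (LinearMap.range (ρ g - c • LinearMap.id)) ≠ 0 := by
    intro h
    obtain ⟨x, hx⟩ := hc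
    rw [Submodule.finrank_eq_zero, LinearMap.range_eq_bot, sub_eq_zero] at h
    exact hx (hinj (LinearMap.ext fun s => by simp [h]))
  have h2 := Submodule.finrank_le (LinearMap.range (ρ g - c • LinearMap.id))
  omega

theorem exp_pos {F : Type*} [Field F] [Finite F] {p e : ℕ} (he : Nat.card F = p ^ e) : 1 ≤ e := by
  rcases Nat.eq_zero_or_pos e with h | h
  · have := Finite.one_lt_card (α := F)
    rw [he, h] at this
    simp at this
  · exact h

end Pool.Agent.P.MP_bed792_al
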