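import Pool.Agent.P.MP_bed792_al.FormC

set_option autoImplicit false

open Module

namespace Pool.Agent.P.MP_bed792_al

variable {G : Type*} [Group G] {F : Type*} [Field F] {V : Type*} [AddCommGroup V] [Module F V]
  {ρ : Representation F G V} {σ : F →+* F} {ε : F} {B f : V →ₗ[F] V →ₛₗ[σ] F}
  {Γ : AddSubgroup F} [Module.Finite F V] {S : Set G} {M Λ : ℕ}

namespace Geo

/-- Orthogonal sum of two elements with large fixed spaces. -/
theorem sum_step (H : Geo ρ ε B f Γ) (T : Tools ρ S M Λ) (hn : M < finrank F V) {g₁ g₂ : G}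
    {W₁ W₂ : Submodule F V} {l₁ l₂ : ℕ} (h₁ : Low ρ W₁ g₁) (h₂ : Low ρ W₂ g₂) (k₁ : Len S l₁ g₁)
    (k₂ : Len S l₂ g₂) (hM : 2 * (finrank F W₁ + finrank F W₂ + 8) ≤ M) (r₁ r₂ r' : V) (a b : F) :
    ∃ (x : G) (W : Submodule F V) (r r'' : V), Len S (l₁ + (2 * Λ + l₂)) x ∧ Low ρ W x ∧
      finrank F W ≤ finrank F W₁ + finrank F W₂ ∧
      B (ρ x r - r) r = a * σ a * B (ρ g₁ r₁ - r₁) r₁ + b * σ b * B (ρ g₂ r₂ - r₂) r₂ ∧
      B (ρ x r - r) r'' = b * B (ρ g₂ r₂ - r₂) r' := by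
  have d1 := finrank_sup_single W₁ r₁
  have d2 := finrank_sup_single W₂ r₂
  have d3 := finrank_sup_single (W₂ ⊔ Submodule.span F {r₂}) r'
  obtain ⟨h, hh, ho⟩ := H.gram_short T hn 0 (W₁ ⊔ Submodule.span F {r₁})
    (W₂ ⊔ Submodule.span F {r₂} ⊔ Submodule.span F {r'}) (by omega)
  simp only [LinearMap.zero_apply] at ho
  have m1 : r₁ ∈ W₁ ⊔ Submodule.span F {r₁} :=
    Submodule.mem_sup_right (Submodule.mem_span_singleton_self _)
  have m2 : r₂ ∈ W₂ ⊔ Submodule.span F {r₂} ⊔ Submodule.span F {r'} :=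
    Submodule.mem_sup_left (Submodule.mem_sup_right (Submodule.mem_span_singleton_self _))
  have m3 : r' ∈ W₂ ⊔ Submodule.span F {r₂} ⊔ Submodule.span F {r'} :=
    Submodule.mem_sup_right (Submodule.mem_span_singleton_self _)
  have m4 : ∀ w ∈ W₂, w ∈ W₂ ⊔ Submodule.span F {r₂} ⊔ Submodule.span F {r'} := fun w hw =>
    Submodule.mem_sup_left (Submodule.mem_sup_left hw)
  have m5 : ρ g₁ r₁ - r₁ ∈ W₁ ⊔ Submodule.span F {r₁} := Submodule.mem_sup_left (h₁ r₁)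
  have f1 : ρ (h * g₂ * h⁻¹) r₁ = r₁ := H.fix (h₂.conj h) (by
    rintro _ ⟨w, hw, rfl⟩
    exact ho _ m1 _ (m4 w hw))
  have f2 : ∀ y ∈ W₂ ⊔ Submodule.span F {r₂} ⊔ Submodule.span F {r'}, ρ g₁ (ρ h y) = ρ h y :=
    fun y hy => H.fix h₁ fun w hw => H.orth (ho _ (Submodule.mem_sup_left hw) _ hy)
  have f3 : ρ g₁ (ρ h (ρ g₂ r₂)) = ρ h (ρ g₂ r₂) :=
    f2 _ (by simpa using Submodule.add_mem _ (m4 _ (h₂ r₂)) m2)
  have key : ρ (g₁ * (h * g₂ * h⁻¹)) (a • r₁ + b • ρ h r₂) - (a • r₁ + b • ρ h r₂) =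
      a • (ρ g₁ r₁ - r₁) + b • ρ h (ρ g₂ r₂ - r₂) := by
    rw [rho_mul, map_add, map_smul, map_smul, f1, rho_mul, rho_mul, rho_inv_apply, map_add,
      map_smul, map_smul, f3, map_sub]
    module
  refine ⟨g₁ * (h * g₂ * h⁻¹), W₁ ⊔ W₂.map (ρ h), a • r₁ + b • ρ h r₂, ρ h r', k₁.mul (hh.conj k₂),
    (h₁.mono le_sup_left).mul ((h₂.conj h).mono le_sup_right), (finrank_sup_le _ _).trans
      (Nat.add_le_add_left (Submodule.finrank_map_le _ _) _), ?_, ?_⟩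
  · rw [key]
    simp only [map_add, map_smul, map_smulₛₗ, LinearMap.add_apply, LinearMap.smul_apply,
      smul_eq_mul, H.iso, ho _ m5 _ m2, H.orth (ho _ m1 _ (m4 _ (h₂ r₂)))]
    ring
  · rw [key]
    simp only [map_add, map_smul, LinearMap.add_apply, LinearMap.smul_apply,
      smul_eq_mul, H.iso, ho _ m5 _ m3]
    ring

/-- A commutator of two conjugates in rank-one position. -/
theorem comm_step (H : Geo ρ ε B f Γ) (T : Tools ρ S M Λ) (hn : M < finrank F V) {x : G}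
    {W : Submodule F V} {l : ℕ} (hx : Low ρ W x) (hl : Len S l x)
    (hM : 2 * (2 * finrank F W + 6) ≤ M) {r u : V} (hu : ρ x r - r = u) (hu0 : u ≠ 0)
    (hur : B u r = 0) : f u u ∈ Γ ∧ ∃ z t, B z u = 0 ∧ z ∉ Submodule.span F {u} ∧ IsQ ρ B u z t ∧
      Len S (4 * Λ + 4 * l) t := by
  have hru := H.orth hur
  have huW : u ∈ W := hu ▸ hx r
  have huu : f u u ∈ Γ := by
    have := H.qiso x r
    rw [eq_add_of_sub_eq hu] at this
    exact mem_of_eq (Γ.sub_mem this (H.qadd u r)) (by rw [hru]; ring)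
  refine ⟨huu, ?_⟩
  obtain ⟨r₂, -, n2, o2⟩ := pick B (X := W) (Y := ⊤) (by rw [finrank_top]; omega)
  obtain ⟨γ, g1, g2⟩ := exists_fun n2
  obtain ⟨s₀, hs₀⟩ := H.exists_one hu0
  have d1 := finrank_sup_single W r₂
  obtain ⟨h, hh, ho⟩ := H.gram_short T hn ((B.flip r).smulRight (B r) + γ.smulRight (B s₀))
    (W ⊔ Submodule.span F {r₂}) W (by omega)
  have k0 : ∀ w ∈ W, ∀ w' ∈ W, B w (ρ h w') = B w r * B r w' := fun w hw w' hw' => by
    rw [ho w (Submodule.mem_sup_left hw) w' hw']; simp [g1 w hw]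
  have k1 : ∀ w' ∈ W, ρ x (ρ h w') = ρ h w' + σ (B r w') • u := fun w' hw' => by
    have := H.fix hx (s := ρ h w' - σ (B r w') • r) fun w hw => H.orth (by
      rw [map_sub, map_smulₛₗ, H.invol, k0 w hw w' hw', smul_eq_mul]; ring)
    rw [map_sub, map_smul] at this
    rw [← hu]
    linear_combination (norm := module) this
  have k2 : ∀ w ∈ W, ρ (h * x * h⁻¹) w = w + B w r • ρ h u := fun w hw => by
    have := H.fix (hx.conj h) (s := w - B w r • ρ h r) (by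
      rintro _ ⟨w', hw', rfl⟩
      simp [H.iso, k0 w hw w' hw'])
    rw [map_sub, map_smul, rho_mul _ _ _ (ρ h r), rho_inv_apply, rho_mul _ h x r] at this
    rw [← hu, map_sub]
    linear_combination (norm := module) this
  have k3 : ρ (h * x * h⁻¹) u = u := by rw [k2 u huW, hur]; simp
  refine ⟨ρ h u, x * (h * x * h⁻¹) * x⁻¹ * (h * x * h⁻¹)⁻¹,
    H.orth (by rw [k0 u huW u huW, hur, zero_mul]), fun hc => ?_, fun s => ?_,
    (((hl.mul (hh.conj hl)).mul hl.inv).mul (hh.conj hl).inv).mono (by omega)⟩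
  · obtain ⟨c, hc⟩ := Submodule.mem_span_singleton.1 hc
    have := ho r₂ (Submodule.mem_sup_right (Submodule.mem_span_singleton_self _)) u huW
    rw [← hc, map_smulₛₗ, o2 u huW] at this
    simp [hru, g2, hs₀] at this
  · generalize hy : h * x * h⁻¹ = y at *
    obtain ⟨v, rfl⟩ : ∃ v, s = ρ y (ρ x v) := ⟨ρ x⁻¹ (ρ y⁻¹ s), by simp⟩
    obtain ⟨w', hw', e1⟩ : ρ y v - v ∈ W.map (ρ h) := hy ▸ hx.conj h v
    have e2 : B (ρ y (ρ x v)) u = -B (ρ x v - v) r := by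
      conv_lhs => rw [← k3, H.iso, ← hu, map_sub, H.iso]
      simp
    refine ⟨σ (B r w'), ?_⟩
    have e3 := k2 _ (hx v)
    have e4 := k1 w' hw'
    rw [e1, map_sub] at e4
    rw [map_sub] at e3
    rw [rho_mul, rho_mul, rho_mul, rho_inv_apply, rho_inv_apply, e2]
    linear_combination (norm := module) e4 - e3

/-- The diameter bound for groups containing all Eichler transformations. -/
theorem main [Finite F] (H : Geo ρ ε B f Γ) (T : Tools ρ S M Λ) {g : G} (hg : g ∈ S)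
    (hc : ∃ x, x * g ≠ g * x) {c : F} {k : ℕ}
    (hk : finrank F (LinearMap.range (ρ g - c • LinearMap.id)) ≤ k) (hM : 24 * k + 16 ≤ M) (x : G) :
    Len S (260000 * Λ ^ 6) x := by
  have hΛ := T.one_le
  have e1 : Λ ≤ Λ ^ 2 := by nlinarith
  have e2 : Λ ^ 2 ≤ Λ ^ 3 := Nat.pow_le_pow_right hΛ (by omega)
  have e3 : Λ ^ 3 ≤ Λ ^ 4 := Nat.pow_le_pow_right hΛ (by omega)
  have e4 : Λ ^ 4 ≤ Λ ^ 5 := Nat.pow_le_pow_right hΛ (by omega)
  have e5 : Λ ^ 5 ≤ Λ ^ 6 := Nat.pow_le_pow_right hΛ (by omega)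
  by_cases hn : finrank F V ≤ M
  · exact (small_case T H.inj hn x).mono (by omega)
  obtain ⟨g', h1, h2, h3⟩ := exists_low T.gen hg hc hk
  have h4 : Low ρ (LinearMap.range (ρ g' - LinearMap.id)) g' := fun s => ⟨s, rfl⟩
  generalize LinearMap.range (ρ g' - LinearMap.id) = W at h3 h4
  obtain ⟨r, hr⟩ : ∃ r, ρ g' r - r ≠ 0 := by
    by_contra hc
    push Not at hc
    exact h1 (H.inj (LinearMap.ext fun s => by simpa [sub_eq_zero] using hc s))
  obtain ⟨r', hr'⟩ : ∃ r', B (ρ g' r - r) r' ≠ 0 := by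
    by_contra hc
    push Not at hc
    exact hr (H.left hc)
  have : NeZero (ringChar F) := ⟨CharP.ringChar_ne_zero_of_finite F⟩
  obtain ⟨a, b, hab⟩ := CharP.sq_add_sq F (ringChar F) (-1)
  obtain ⟨x₁, W₁, r₁, -, l1, w1, d1, p1, -⟩ :=
    H.sum_step T (by omega) h4 h4 h2 h2 (by omega) r r r (a : F) (b : F)
  obtain ⟨x₂, W₂, r₂, r₃, l2, w2, d2, p2, p3⟩ :=
    H.sum_step T (by omega) w1 h4 l1 h2 (by omega) r₁ r r' 1 1
  have hu0 : ρ x₂ r₂ - r₂ ≠ 0 := fun h => hr' (by simpa [h] using p3.symm)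
  obtain ⟨huu, z, t, q1, q2, q3, q4⟩ := H.comm_step T (by omega) w2 l2 (by omega) rfl hu0 (by
    rw [p2, p1, map_natCast, map_natCast, map_one]
    push_cast at hab
    linear_combination B (ρ g' r - r) r * hab)
  have hall : ∀ t ∈ Ei ρ ε B f Γ, Len S (20764 * Λ ^ 4) t := fun t' ht' =>
    (H.q₄ T (by omega) (by omega) hu0 huu (fun z' t' hz' ht' => H.q₃ T (by omega) (by omega) hu0
      huu q1 q2 q3 (q4.mono (show _ ≤ 68 * Λ by omega)) (by omega)
      (fun z' hz' => H.q₂ T (by omega) (by omega) hu0 huu q1 q2 q3 (q4.mono (by omega)) hz')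
      hz' ht') ht').mono (by nlinarith)
  obtain ⟨K, hK, hK1, hK2⟩ := H.decomp (finrank F V) ⊤ H.top (by simp)
  have hq : Nat.card K ≤ Λ := hK1.trans (le_trans (Nat.pow_le_pow_right Nat.card_pos
    (Nat.pow_le_pow_left (by omega) 2)) T.card)
  have := len_schreier T.gen K (L := 83056 * Λ ^ 5) (fun y => by
    obtain ⟨a, ha, ha'⟩ := hK2 y (fun _ => trivial)
    refine ⟨a, (Len.comp hall ha).mono ?_, ha'⟩
    nlinarith [Nat.mul_le_mul_left (20764 * Λ ^ 4) T.dim]) x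
  refine this.mono ?_
  nlinarith [Nat.mul_le_mul_left (2 * (83056 * Λ ^ 5) + 1) hq]

end Geo

end Pool.Agent.P.MP_bed792_al
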