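import Pool.Agent.P.MP_bed792_al.SLB
import Pool.Agent.P.MP_bed792_al.FormD
import Pool.Agent.P.MP_bed792_al.Fin
import Pool.Agent.P.MP_bed792_al.Defs

set_option autoImplicit false

open Module Matrix

namespace Pool.Agent.P.MP_bed792_al

theorem HasT.mem_commutator {G : Type*} [Group G] {F : Type*} [Field F] {V : Type*}
    [AddCommGroup V] [Module F V] [Module.Finite F V] {ρ : Representation F G V} (H : HasT ρ)
    (hn : 3 ≤ finrank F V) {u : V} {φ : Dual F V} {t : G} (h : φ u = 0) (ht : IsT ρ u φ t) :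
    t ∈ commutator G := by
  obtain ⟨w, hw, hwu⟩ := exists_notMem (U := LinearMap.ker φ) (Z := Submodule.span F {u}) (by
    have := LinearMap.finrank_range_add_finrank_ker φ
    have := finrank_single_le (F := F) u
    have := Submodule.finrank_le (LinearMap.range φ)
    rw [finrank_self] at this
    omega)
  obtain ⟨α, h1, h2⟩ := exists_fun hwu
  have h3 := h1 u (Submodule.mem_span_singleton_self u)
  obtain ⟨y, hy⟩ := H.ex u α h3
  obtain ⟨t₁, ht₁⟩ := H.ex w φ hw
  have k1 := ht₁.conj y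
  have k2 : φ ∘ₗ ρ y⁻¹ = φ := LinearMap.ext fun s => by
    rw [LinearMap.comp_apply, hy.inv h3 s]; simp [h]
  rw [k2, hy w, h2] at k1
  have k3 := k1.mul (ht₁.inv hw) (by simpa using hw)
  rw [H.uniq ht (by simpa using k3)]
  exact Subgroup.commutator_mem_commutator (Subgroup.mem_top y) (Subgroup.mem_top t₁)

variable {n : ℕ} {F : Type} [Field F]

theorem hasT {K : Subgroup (GL (Fin n) F)} (hK : ⁅(⊤ : Subgroup (GL (Fin n) F)), ⊤⁆ ≤ K)
    (hn : 3 ≤ n) : HasT (stdRep K) := by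
  have H : HasT (stdRep (⊤ : Subgroup (GL (Fin n) F))) := ⟨stdRep_inj _, fun u φ h => by
    obtain ⟨t, ht⟩ := exists_gl (LinearMap.transvection φ u) (LinearEquiv.transvection h).injective
    exact ⟨⟨t, trivial⟩, fun s => LinearMap.congr_fun ht s⟩⟩
  refine ⟨stdRep_inj _, fun u φ h => ?_⟩
  obtain ⟨t, ht⟩ := H.ex u φ h
  have := H.mem_commutator (by simpa using hn) h ht
  exact ⟨⟨t, hK (by rw [← Subgroup.map_subtype_commutator]; exact ⟨t, this, rfl⟩)⟩, ht⟩

theorem geo {σ : F →+* F} {ε : F} {B f : (Fin n → F) →ₗ[F] (Fin n → F) →ₛₗ[σ] F}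
    {Γ : AddSubgroup F} (H : Frm ε B f Γ) {I K : Subgroup (GL (Fin n) F)}
    (hI : ∀ g : GL (Fin n) F, g ∈ I ↔ (∀ x y, B (g.1 *ᵥ x) (g.1 *ᵥ y) = B x y) ∧
      ∀ x, f (g.1 *ᵥ x) (g.1 *ᵥ x) - f x x ∈ Γ) (h1 : ⁅I, I⁆ ≤ K) (h2 : K ≤ I) (hn : 12 < n) :
    Geo (stdRep K) ε B f Γ := by
  have H' : Geo (stdRep I) ε B f Γ := ⟨H, stdRep_inj _, fun g => ((hI g).1 g.2).1,
    fun g => ((hI g).1 g.2).2, fun u z c hu hz hc => by
      let E : (Fin n → F) →ₗ[F] (Fin n → F) := LinearMap.id + (B.flip u).smulRight z +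
        (c • B.flip u - ε • B.flip z).smulRight u
      have hE : ∀ s, E s = s + B s u • z + (c * B s u - ε * B s z) • u := fun s => rfl
      have k1 : ∀ x y, B (E x) (E y) = B x y := fun x y => by
        have a1 := H.gmax _ hc
        have a2 := H.pol z z
        have a3 := H.symm u y
        have a4 := H.symm z y
        rw [map_add] at a1
        simp only [hE, map_add, map_smul, map_smulₛₗ, LinearMap.add_apply, LinearMap.smul_apply,
          smul_eq_mul, H.sing hu, hz, H.orth hz, map_sub, map_mul, H.se, a3, a4]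
        linear_combination B x u * σ (B y u) * (a1 + a2) - B x z * σ (B y u) * H.ee
      have k2 : ∀ x, f (E x) (E x) - f x x ∈ Γ := fun x => by
        rw [hE]
        refine mem_of_eq (Γ.add_mem (Γ.add_mem (Γ.add_mem (Γ.add_mem
          (H.qadd (x + B x u • z) ((c * B x u - ε * B x z) • u)) (H.qadd x (B x u • z)))
          (H.sing_smul hu (c * B x u - ε * B x z))) (H.gsmul (B x u) _ hc))
          (H.gmin (B x u * B z x))) ?_
        have a1 : B ((c * B x u - ε * B x z) • u) (x + B x u • z) =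
            (c * B x u - ε * B x z) * (ε * σ (B x u)) := by
          simp [map_smulₛₗ, H.orth hz, H.symm u x]
        have a2 : B (B x u • z) x = B x u * B z x := by simp
        rw [a1, a2, Frm.qsmul f (B x u), map_mul, H.symm x z]
        linear_combination (c * B x u * σ (B x u) - σ (B x u) * σ (B z x) * (ε * ε + 1)) * H.ee
      obtain ⟨t, ht⟩ := exists_gl E ((injective_iff_map_eq_zero E).2 fun x hx =>
        H.left fun y => by rw [← k1, hx]; simp)
      have ht' : ∀ s, t.1 *ᵥ s = E s := fun s => LinearMap.congr_fun ht s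
      exact ⟨⟨t, (hI t).2 ⟨by simpa only [ht'] using k1, by simpa only [ht'] using k2⟩⟩, ht'⟩⟩
  refine ⟨H, stdRep_inj _, fun g => ((hI g).1 (h2 g.2)).1, fun g => ((hI g).1 (h2 g.2)).2,
    fun u z c hu hz hc => ?_⟩
  obtain ⟨t, ht⟩ := H'.ex u z c hu hz hc
  have := H'.mem_commutator (by simpa using hn) hu hz ht
  exact ⟨⟨t, h1 (by rw [← Subgroup.map_subtype_commutator]; exact ⟨t, this, rfl⟩)⟩, ht⟩

/-- The sesquilinear form of a matrix. -/
def frm (σ : F →+* F) (J : Matrix (Fin n) (Fin n) F) : (Fin n → F) →ₗ[F] (Fin n → F) →ₛₗ[σ] F :=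
  LinearMap.mk₂'ₛₗ (RingHom.id F) σ (fun x y => x ⬝ᵥ J *ᵥ (σ ∘ y)) (fun _ _ _ => by simp)
    (fun _ _ _ => by simp)
    (fun x y z => by
      rw [show σ ∘ (y + z) = σ ∘ y + σ ∘ z by ext; simp, mulVec_add, dotProduct_add])
    (fun c x y => by
      rw [show σ ∘ (c • y) = σ c • (σ ∘ y) by ext; simp, mulVec_smul, dotProduct_smul])

theorem frm_apply (σ : F →+* F) (J : Matrix (Fin n) (Fin n) F) (x y : Fin n → F) :
    frm σ J x y = x ⬝ᵥ J *ᵥ (σ ∘ y) := rfl

theorem frm_flip {σ : F →+* F} (hσ : ∀ x, σ (σ x) = x) (J : Matrix (Fin n) (Fin n) F)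
    (x y : Fin n → F) : σ (frm σ J y x) = frm σ (J.map σ)ᵀ x y := by
  simp only [frm_apply, dotProduct, mulVec, map_sum, map_mul, Function.comp_apply, hσ,
    transpose_apply, map_apply, Finset.mul_sum]
  rw [Finset.sum_comm]
  exact Finset.sum_congr rfl fun _ _ => Finset.sum_congr rfl fun _ _ => by ring

theorem frm_nd {σ : F →+* F} (hσ : ∀ x, σ (σ x) = x) {J : Matrix (Fin n) (Fin n) F}
    (hJ : J.det ≠ 0) (φ : Dual F (Fin n → F)) : ∃ w, ∀ y, frm σ J y w = φ y := by
  refine ⟨σ ∘ (J⁻¹ *ᵥ fun i => φ (Pi.single i 1)), fun y => ?_⟩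
  rw [frm_apply, show σ ∘ σ ∘ (J⁻¹ *ᵥ fun i => φ (Pi.single i 1)) =
    J⁻¹ *ᵥ fun i => φ (Pi.single i 1) by ext; simp [hσ], mulVec_mulVec,
    mul_nonsing_inv _ (Ne.isUnit hJ), one_mulVec, LinearMap.pi_apply_eq_sum_univ φ y]
  simp only [dotProduct, smul_eq_mul]
  refine Finset.sum_congr rfl fun i _ => ?_
  congr 2
  ext j
  simp [Pi.single_apply, eq_comm]

theorem frm_iso (σ : F →+* F) (J g : Matrix (Fin n) (Fin n) F) :
    gᵀ * J * g.map σ = J ↔ ∀ x y, frm σ J (g *ᵥ x) (g *ᵥ y) = frm σ J x y := by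
  have key : ∀ x y, frm σ J (g *ᵥ x) (g *ᵥ y) = frm σ (gᵀ * J * g.map σ) x y := fun x y => by
    rw [frm_apply, frm_apply, show σ ∘ (g *ᵥ y) = g.map σ *ᵥ (σ ∘ y) from
      funext fun i => RingHom.map_mulVec σ g y i, ← mulVec_mulVec, ← mulVec_mulVec,
      dotProduct_mulVec x, vecMul_transpose]
  refine ⟨fun h x y => by rw [key, h], fun h => ?_⟩
  ext i j
  have := h (Pi.single i 1) (Pi.single j 1)
  rw [key, frm_apply, frm_apply, show σ ∘ (Pi.single j 1 : Fin n → F) = Pi.single j 1 by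
    ext k; by_cases h : k = j <;> simp [h]] at this
  simpa using this

theorem classical_cases [Finite F] {I : Subgroup (GL (Fin n) F)} (hI : IsClassical I) : I = ⊤ ∨
    ∃ (σ : F →+* F) (ε : F) (B f : (Fin n → F) →ₗ[F] (Fin n → F) →ₛₗ[σ] F) (Γ : AddSubgroup F),
      Frm ε B f Γ ∧ ∀ g : GL (Fin n) F, g ∈ I ↔ (∀ x y, B (g.1 *ᵥ x) (g.1 *ᵥ y) = B x y) ∧
        ∀ x, f (g.1 *ᵥ x) (g.1 *ᵥ x) - f x x ∈ Γ := by
  rcases hI with h | ⟨J, h1, h2, h3, h4⟩ | ⟨σ, J, h0, hσ, h1, h2, h4⟩ | ⟨A, h1, h4⟩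
  · exact Or.inl h
  · let A : Matrix (Fin n) (Fin n) F := Matrix.of fun i j => if i < j then -J i j else 0
    have hA : J = -A + Aᵀ := by
      ext i j
      have := congrFun (congrFun h2 i) j
      simp only [transpose_apply, Matrix.neg_apply] at this
      rcases lt_trichotomy i j with h | h | h
      · simp [A, h, h.not_gt]
      · simp [A, h, h3]
      · simp [A, h, h.not_gt, this]
    refine Or.inr ⟨RingHom.id F, -1, frm _ J, frm _ A, ⊤, ⟨fun _ => rfl, Or.inr rfl, fun x y => ?_,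
      frm_nd (fun _ => rfl) h1, by simp, by simp, by simp, by simp⟩, fun g => ?_⟩
    · rw [frm_flip fun _ => rfl, hA]
      simp [frm_apply, add_mulVec, neg_mulVec]
    · rw [h4, ← frm_iso]; simp
  · obtain ⟨θ, hθ⟩ : ∃ θ : F, θ + σ θ = 1 := by
      obtain ⟨x, hx⟩ : ∃ x, x + σ x ≠ 0 := by
        by_contra hc
        push Not at hc
        refine h0 (RingHom.ext fun x => ?_)
        have a1 := hc 1
        rw [map_one] at a1
        rw [RingHom.id_apply]
        linear_combination hc x - x * a1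
      refine ⟨x / (x + σ x), ?_⟩
      rw [map_div₀, map_add, hσ, add_comm (σ x)]
      field_simp
    have hsym : ∀ x y, σ (frm σ J y x) = frm σ J x y := fun x y => by
      rw [frm_flip hσ, ← h2, transpose_transpose]
    let Γ : AddSubgroup F := (AddMonoidHom.id F + σ.toAddMonoidHom).ker
    have hΓ : ∀ c, c ∈ Γ ↔ c + σ c = 0 := fun c => Iff.rfl
    refine Or.inr ⟨σ, 1, frm σ J, θ • frm σ J, Γ, ⟨hσ, Or.inl rfl, fun x y => ?_, frm_nd hσ h1,
      fun a c hc => ?_, fun c hc => by simpa using (hΓ c).1 hc, fun b => by simp [hΓ, hσ],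
      fun x y z hx hy => ?_⟩, fun g => ?_⟩
    · simp only [LinearMap.smul_apply, smul_eq_mul, map_mul, hsym]
      linear_combination -frm σ J x y * hθ
    · rw [hΓ] at hc ⊢
      rw [map_mul, map_mul, hσ]
      linear_combination a * σ a * hc
    · have hfix : ∀ x : F, σ (x + σ x) = x + σ x := fun x => by rw [map_add, hσ, add_comm]
      obtain ⟨a, b, hab⟩ := quad (K := σ.eqLocusField (RingHom.id F)) (x := ⟨_, hfix x⟩)
        (y := ⟨_, hfix y⟩) (fun h => hx (congrArg Subtype.val h))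
        (fun h => hy (congrArg Subtype.val h)) ⟨_, hfix z⟩
      have ha : σ a = a := a.2
      have hb : σ b = b := b.2
      have hab' : (a : F) ^ 2 * (x + σ x) + (b : F) ^ 2 * (y + σ y) + (z + σ z) = 0 :=
        congrArg Subtype.val hab
      refine ⟨a, b, (hΓ _).2 ?_⟩
      simp only [map_add, map_mul, ha, hb]
      linear_combination hab'
    · rw [h4, frm_iso]
      exact ⟨fun h => ⟨h, fun x => by simp [h]⟩, fun h => h.1⟩
  · have hpol : ∀ x y, frm (RingHom.id F) (A + Aᵀ) x y =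
        frm (RingHom.id F) A x y + frm (RingHom.id F) A y x := fun x y => by
      have := frm_flip (σ := RingHom.id F) (fun _ => rfl) A x y
      rw [RingHom.id_apply] at this
      rw [this]
      simp [frm_apply, add_mulVec]
    refine Or.inr ⟨RingHom.id F, 1, frm _ (A + Aᵀ), frm _ A, ⊥, ⟨fun _ => rfl, Or.inl rfl,
      fun x y => by simp [hpol], frm_nd (fun _ => rfl) h1, by simp, by simp, by simp,
      fun x y z hx hy => ?_⟩, fun g => ?_⟩
    · obtain ⟨a, b, hab⟩ := quad (x := x) (y := y) (by simpa using hx) (by simpa using hy) z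
      exact ⟨a, b, by simpa [sq] using hab⟩
    · rw [h4]
      simp only [AddSubgroup.mem_bot, sub_eq_zero]
      refine ⟨fun h => ⟨fun x y => ?_, h⟩, fun h => h.2⟩
      have h' : ∀ x, frm (RingHom.id F) A (g.1 *ᵥ x) (g.1 *ᵥ x) = frm (RingHom.id F) A x x := h
      have := h' (x + y)
      simp only [mulVec_add, map_add, LinearMap.add_apply, h'] at this
      rw [hpol, hpol]
      linear_combination this

end Pool.Agent.P.MP_bed792_al
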