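import Pool.Agent.P.MP_bed792_al.Lin

set_option autoImplicit false

open Module

namespace Pool.Agent.P.MP_bed792_al

variable {G : Type*} [Group G] {F : Type*} [Field F] {V : Type*} [AddCommGroup V] [Module F V]

/-- `t` is the Eichler transformation with data `u, z, c`. -/
def IsE (ρ : Representation F G V) {σ : F →+* F} (ε : F) (B : V →ₗ[F] V →ₛₗ[σ] F) (u z : V) (c : F)
    (t : G) : Prop := ∀ s, ρ t s = s + B s u • z + (c * B s u - ε * B s z) • u

/-- A nondegenerate form with a form parameter: this covers alternating, hermitian and quadratic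
forms. The value of the (pseudo)quadratic form at `x` is `f x x` modulo `Γ`. -/
structure Frm {σ : F →+* F} (ε : F) (B f : V →ₗ[F] V →ₛₗ[σ] F) (Γ : AddSubgroup F) : Prop where
  invol : ∀ x, σ (σ x) = x
  eps : ε = 1 ∨ ε = -1
  pol : ∀ x y, B x y = ε * f x y + σ (f y x)
  nd : ∀ φ : Dual F V, ∃ w, ∀ y, B y w = φ y
  gsmul : ∀ a, ∀ c ∈ Γ, a * σ a * c ∈ Γ
  gmax : ∀ c ∈ Γ, ε * c + σ c = 0
  gmin : ∀ b, ε * b - σ b ∈ Γ
  three : ∀ x y z, x ∉ Γ → y ∉ Γ → ∃ a b, a * σ a * x + b * σ b * y + z ∈ Γ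

/-- A group of isometries that contains all Eichler transformations. -/
structure Geo (ρ : Representation F G V) {σ : F →+* F} (ε : F) (B f : V →ₗ[F] V →ₛₗ[σ] F)
    (Γ : AddSubgroup F) : Prop extends Frm ε B f Γ where
  inj : Function.Injective ρ
  iso : ∀ g x y, B (ρ g x) (ρ g y) = B x y
  qiso : ∀ g x, f (ρ g x) (ρ g x) - f x x ∈ Γ
  ex : ∀ u z c, f u u ∈ Γ → B z u = 0 → c + f z z ∈ Γ → ∃ t, IsE ρ ε B u z c t

/-- The form is nondegenerate on `Y`. -/
def ND {σ : F →+* F} (B : V →ₗ[F] V →ₛₗ[σ] F) (Y : Submodule F V) : Prop :=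
  ∀ φ : Dual F V, ∃ f ∈ Y, ∀ y ∈ Y, B y f = φ y

theorem quad {K : Type*} [Field K] [Finite K] {x y : K} (hx : x ≠ 0) (hy : y ≠ 0) (z : K) :
    ∃ a b, a ^ 2 * x + b ^ 2 * y + z = 0 := by
  classical
  by_cases h2 : ringChar K = 2
  · obtain ⟨a, ha⟩ := FiniteField.isSquare_of_char_two h2 (-z / x)
    exact ⟨a, 0, by rw [sq, ← ha]; field_simp; ring⟩
  · have := Fintype.ofFinite K
    obtain ⟨a, b, hab⟩ := FiniteField.exists_root_sum_quadratic
      (f := Polynomial.C x * Polynomial.X ^ 2) (g := Polynomial.C y * Polynomial.X ^ 2 + Polynomial.C z)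
      (Polynomial.degree_C_mul_X_pow 2 hx)
      (by rw [Polynomial.degree_add_C (by rw [Polynomial.degree_C_mul_X_pow 2 hy]; decide),
        Polynomial.degree_C_mul_X_pow 2 hy]; rfl)
      (FiniteField.odd_card_of_char_ne_two h2)
    exact ⟨a, b, by simp at hab; linear_combination hab⟩

variable {ρ : Representation F G V} {σ : F →+* F} {ε : F} {B f : V →ₗ[F] V →ₛₗ[σ] F}
  {Γ : AddSubgroup F}

theorem mem_of_eq {a b : F} (h : a ∈ Γ) (e : b = a) : b ∈ Γ := e ▸ h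

namespace Frm

theorem ee (H : Frm ε B f Γ) : ε * ε = 1 := by rcases H.eps with h | h <;> simp [h]

theorem se (H : Frm ε B f Γ) : σ ε = ε := by rcases H.eps with h | h <;> simp [h]

theorem symm (H : Frm ε B f Γ) (x y : V) : B x y = ε * σ (B y x) := by
  rw [H.pol, H.pol, map_add, map_mul, H.se, H.invol]
  linear_combination -σ (f y x) * H.ee

theorem orth (H : Frm ε B f Γ) {x y : V} (h : B x y = 0) : B y x = 0 := by
  rw [H.symm, h]; simp

theorem flip_one (H : Frm ε B f Γ) {x y : V} (h : B x y = 1) : B y x = ε := by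
  rw [H.symm, h]; simp

theorem sing (H : Frm ε B f Γ) {u : V} (h : f u u ∈ Γ) : B u u = 0 := by
  rw [H.pol, H.gmax _ h]

theorem qadd' (H : Frm ε B f Γ) (x y : V) : f (x + y) (x + y) =
    f x x + f y y + ε * B y x + (ε * (ε * f x y) - σ (ε * f x y)) := by
  simp only [map_add, LinearMap.add_apply, H.pol y x, map_mul, H.se]
  linear_combination -(f y x + f x y) * H.ee

theorem qadd (H : Frm ε B f Γ) (x y : V) :
    f (x + y) (x + y) - (f x x + f y y + ε * B y x) ∈ Γ :=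
  mem_of_eq (H.gmin (ε * f x y)) (by rw [H.qadd']; ring)

theorem qsmul (f : V →ₗ[F] V →ₛₗ[σ] F) (a : F) (x : V) :
    f (a • x) (a • x) = a * σ a * f x x := by
  simp only [map_smul, map_smulₛₗ, LinearMap.smul_apply, smul_eq_mul]; ring

theorem sing_smul (H : Frm ε B f Γ) {x : V} (h : f x x ∈ Γ) (a : F) : f (a • x) (a • x) ∈ Γ := by
  rw [qsmul]; exact H.gsmul _ _ h

/-- The value of the form at `w + e + τ f` for a hyperbolic pair orthogonal to `w`. -/
theorem q_hyp (H : Frm ε B f Γ) {w e e' : V} (he : f e e ∈ Γ) (he' : f e' e' ∈ Γ)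
    (h : B e e' = 1) (h1 : B w e = 0) (h2 : B w e' = 0) (τ : F) :
    f (w + e + τ • e') (w + e + τ • e') - (f w w + τ) ∈ Γ := by
  refine mem_of_eq (Γ.add_mem (Γ.add_mem (Γ.add_mem (H.qadd (w + e) (τ • e')) (H.qadd w e)) he)
    (H.sing_smul he' τ)) ?_
  have : B (τ • e') (w + e) = τ * ε := by simp [H.orth h2, H.flip_one h]
  rw [this, H.orth h1]
  linear_combination τ * H.ee

theorem top (H : Frm ε B f Γ) : ND B ⊤ := fun φ =>
  let ⟨w, hw⟩ := H.nd φ
  ⟨w, trivial, fun y _ => hw y⟩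

theorem left (H : Frm ε B f Γ) {x : V} (h : ∀ y, B x y = 0) : x = 0 := by
  by_contra hx
  obtain ⟨φ, -, h1⟩ := exists_fun (X := (⊥ : Submodule F V)) (y := x) (by simpa using hx)
  obtain ⟨w, hw⟩ := H.nd φ
  exact zero_ne_one ((h w).symm.trans ((hw x).trans h1))

theorem exists_one (H : Frm ε B f Γ) {u : V} (hu : u ≠ 0) : ∃ s, B s u = 1 := by
  obtain ⟨y, hy⟩ : ∃ y, B y u ≠ 0 := by
    by_contra hc
    push Not at hc
    exact hu (H.left fun y => H.orth (hc y))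
  exact ⟨(B y u)⁻¹ • y, by simp [hy]⟩

end Frm

theorem Geo.fix (H : Geo ρ ε B f Γ) {g : G} {W : Submodule F V} (hg : ∀ s, ρ g s - s ∈ W) {s : V}
    (hs : ∀ w ∈ W, B s w = 0) : ρ g s = s := by
  refine sub_eq_zero.1 (H.left fun y => ?_)
  obtain ⟨y, rfl⟩ : ∃ x, y = ρ g x := ⟨ρ g⁻¹ y, by simp⟩
  have := hs _ (hg y)
  rw [map_sub] at this
  rw [map_sub, LinearMap.sub_apply, H.iso]
  linear_combination -this

variable [Module.Finite F V]

theorem pick (B : V →ₗ[F] V →ₛₗ[σ] F) {X Y : Submodule F V} (h : 2 * finrank F X < finrank F Y) :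
    ∃ w ∈ Y, w ∉ X ∧ ∀ x ∈ X, B w x = 0 := by
  let b := Module.finBasis F X
  let L : Y →ₗ[F] (Fin (finrank F X) → F) := (LinearMap.pi fun i => B.flip (b i)) ∘ₗ Y.subtype
  have h1 := LinearMap.finrank_range_add_finrank_ker L
  have h2 := Submodule.finrank_le (LinearMap.range L)
  rw [Module.finrank_fin_fun] at h2
  obtain ⟨_, ⟨w, hw, rfl⟩, hwX⟩ := exists_notMem (U := (LinearMap.ker L).map Y.subtype) (Z := X)
    (by rw [Submodule.finrank_map_subtype_eq]; omega)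
  refine ⟨w, w.2, hwX, fun x hx => ?_⟩
  have h3 : ∀ i, B w (b i) = 0 := fun i => congrFun (LinearMap.mem_ker.1 hw) i
  have h4 : x = ∑ i, b.repr ⟨x, hx⟩ i • (b i : V) := by
    have := congrArg Subtype.val (b.sum_repr ⟨x, hx⟩).symm
    rwa [Submodule.coe_sum] at this
  rw [h4, map_sum]
  exact Finset.sum_eq_zero fun i _ => by rw [map_smulₛₗ, h3, smul_zero]

namespace Frm

theorem isotropic (H : Frm ε B f Γ) {X Y : Submodule F V}
    (h : 2 * (finrank F X + 2) < finrank F Y) :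
    ∃ e ∈ Y, e ∉ X ∧ (∀ x ∈ X, B e x = 0) ∧ f e e ∈ Γ := by
  obtain ⟨e₁, y1, n1, o1⟩ := pick B (X := X) (Y := Y) (by omega)
  have d1 := finrank_sup_single X e₁
  obtain ⟨e₂, y2, n2, o2⟩ := pick B (X := X ⊔ Submodule.span F {e₁}) (Y := Y) (by omega)
  have d2 := finrank_sup_single (X ⊔ Submodule.span F {e₁}) e₂
  obtain ⟨e₃, y3, n3, o3⟩ := pick B (X := X ⊔ Submodule.span F {e₁} ⊔ Submodule.span F {e₂})
    (Y := Y) (by omega)
  by_cases z1 : f e₁ e₁ ∈ Γ
  · exact ⟨e₁, y1, n1, o1, z1⟩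
  by_cases z2 : f e₂ e₂ ∈ Γ
  · exact ⟨e₂, y2, fun h => n2 (Submodule.mem_sup_left h),
      fun x hx => o2 x (Submodule.mem_sup_left hx), z2⟩
  obtain ⟨a, b, hab⟩ := H.three _ _ (f e₃ e₃) z1 z2
  have m1 : e₁ ∈ X ⊔ Submodule.span F {e₁} :=
    Submodule.mem_sup_right (Submodule.mem_span_singleton_self _)
  have m2 : e₂ ∈ X ⊔ Submodule.span F {e₁} ⊔ Submodule.span F {e₂} :=
    Submodule.mem_sup_right (Submodule.mem_span_singleton_self _)
  have p21 := o2 e₁ m1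
  have p31 := o3 e₁ (Submodule.mem_sup_left m1)
  have p32 := o3 e₂ m2
  refine ⟨a • e₁ + b • e₂ + e₃,
    Y.add_mem (Y.add_mem (Y.smul_mem _ y1) (Y.smul_mem _ y2)) y3, fun hx => n3 ?_, fun x hx => ?_, ?_⟩
  · have := Submodule.sub_mem _ (Submodule.mem_sup_left (Submodule.mem_sup_left hx))
      (Submodule.add_mem _ (Submodule.smul_mem _ a (Submodule.mem_sup_left m1))
        (Submodule.smul_mem _ b m2))
    simpa using this
  · simp [o1 x hx, o2 x (Submodule.mem_sup_left hx),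
      o3 x (Submodule.mem_sup_left (Submodule.mem_sup_left hx))]
  · refine mem_of_eq (Γ.add_mem (Γ.add_mem (H.qadd (a • e₁ + b • e₂) e₃)
      (H.qadd (a • e₁) (b • e₂))) hab) ?_
    have h1 : B e₃ (a • e₁ + b • e₂) = 0 := by simp [map_smulₛₗ, p31, p32]
    have h2 : B (b • e₂) (a • e₁) = 0 := by simp [map_smulₛₗ, p21]
    rw [h1, h2, qsmul, qsmul]
    ring

theorem hyp (H : Frm ε B f Γ) {X Y : Submodule F V} (hY : ND B Y) (hXY : X ≤ Y)
    (h : 2 * (finrank F X + 2) < finrank F Y) : ∃ e ∈ Y, ∃ e' ∈ Y, f e e ∈ Γ ∧ f e' e' ∈ Γ ∧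
      B e e' = 1 ∧ ∀ x ∈ X, B x e = 0 ∧ B x e' = 0 := by
  obtain ⟨e, he, heX, ho, hee⟩ := H.isotropic h
  obtain ⟨φ, h1, h2⟩ := exists_fun heX
  obtain ⟨w, hw, hw'⟩ := hY φ
  have h3 : B e w = 1 := (hw' e he).trans h2
  refine ⟨e, he, w + (-(ε * f w w)) • e, Y.add_mem hw (Y.smul_mem _ he), hee, ?_,
    by simp [map_smulₛₗ, h3, H.sing hee], fun x hx => ⟨H.orth (ho x hx), ?_⟩⟩
  · refine mem_of_eq (Γ.add_mem (H.qadd w ((-(ε * f w w)) • e))
      (H.sing_smul hee (-(ε * f w w)))) ?_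
    have : B ((-(ε * f w w)) • e) w = -(ε * f w w) := by simp [h3]
    rw [this]
    linear_combination -f w w * H.ee
  · simp [map_smulₛₗ, H.orth (ho x hx), hw' x (hXY hx), h1 x hx]

theorem solve (H : Frm ε B f Γ) {X Y : Submodule F V} (hY : ND B Y) (hXY : X ≤ Y)
    (h : 2 * (finrank F X + 3) < finrank F Y) (φ : Dual F V) (ν : F) :
    ∃ w ∈ Y, w ∉ X ∧ (∀ x ∈ X, B x w = φ x) ∧ f w w - ν ∈ Γ := by
  obtain ⟨w, hw, hw'⟩ := hY φ
  have d1 := finrank_sup_single X w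
  obtain ⟨e, he, e', he', hee, hff, hef, ho⟩ := H.hyp (X := X ⊔ Submodule.span F {w}) hY
    (sup_le hXY ((Submodule.span_singleton_le_iff_mem _ _).2 hw)) (by omega)
  obtain ⟨o1, o2⟩ := ho w (Submodule.mem_sup_right (Submodule.mem_span_singleton_self _))
  refine ⟨w + e + (ν - f w w) • e', Y.add_mem (Y.add_mem hw he) (Y.smul_mem _ he'), fun hx => ?_,
    fun x hx => ?_, by simpa using H.q_hyp hee hff hef o1 o2 (ν - f w w)⟩
  · simpa [o2, hef, H.sing hff] using (ho _ (Submodule.mem_sup_left hx)).2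
  · obtain ⟨o3, o4⟩ := ho x (Submodule.mem_sup_left hx)
    simp [map_smulₛₗ, o3, o4, hw' x (hXY hx)]

end Frm

end Pool.Agent.P.MP_bed792_al
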