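import Pool.Agent.P.MP_bed792_al.FormA

set_option autoImplicit false

open Module

namespace Pool.Agent.P.MP_bed792_al

variable {G : Type*} [Group G] {F : Type*} [Field F] {V : Type*} [AddCommGroup V] [Module F V]

/-- The Eichler transformations. -/
def Ei (ρ : Representation F G V) {σ : F →+* F} (ε : F) (B f : V →ₗ[F] V →ₛₗ[σ] F)
    (Γ : AddSubgroup F) : Set G :=
  {t | ∃ u z c, f u u ∈ Γ ∧ B z u = 0 ∧ IsE ρ ε B u z c t}

/-- `g` moves every vector by an element of `W`. -/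
def Low (ρ : Representation F G V) (W : Submodule F V) (g : G) : Prop := ∀ s, ρ g s - s ∈ W

variable {ρ : Representation F G V} {σ : F →+* F} {ε : F} {B f : V →ₗ[F] V →ₛₗ[σ] F}
  {Γ : AddSubgroup F}

theorem Low.mul {W : Submodule F V} {g h : G} (hg : Low ρ W g) (hh : Low ρ W h) :
    Low ρ W (g * h) := fun s => by
  have := W.add_mem (hg (ρ h s)) (hh s)
  rwa [sub_add_sub_cancel, ← rho_mul] at this

theorem Low.inv {W : Submodule F V} {g : G} (hg : Low ρ W g) : Low ρ W g⁻¹ := fun s => by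
  simpa using W.neg_mem (hg (ρ g⁻¹ s))

theorem Low.mono {W W' : Submodule F V} {g : G} (hg : Low ρ W g) (h : W ≤ W') : Low ρ W' g :=
  fun s => h (hg s)

theorem Low.conj {W : Submodule F V} {g : G} (hg : Low ρ W g) (h : G) :
    Low ρ (W.map (ρ h)) (h * g * h⁻¹) := fun s =>
  ⟨_, hg (ρ h⁻¹ s), by simp⟩

theorem Low.mem {W : Submodule F V} {g : G} (hg : Low ρ W g) {y : V} (hy : y ∈ W) : ρ g y ∈ W := by
  simpa using W.add_mem (hg y) hy

namespace Geo

theorem move₀ (H : Geo ρ ε B f Γ) {u y y' : V} (hu : f u u ∈ Γ) (h1 : B y u = 1) (h2 : B y' u = 1)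
    (h3 : f y y - f y' y' ∈ Γ) : ∃ t, IsE ρ ε B u (y' - y) (ε * B y (y' - y)) t ∧
      B (y' - y) u = 0 ∧ ρ t y = y' := by
  have h4 : B (y' - y) u = 0 := by simp [h1, h2]
  obtain ⟨t, ht⟩ := H.ex u (y' - y) (ε * B y (y' - y)) hu h4 (by
    have h5 := H.qadd (y' - y) y
    rw [sub_add_cancel] at h5
    exact mem_of_eq (Γ.neg_mem (Γ.add_mem h5 h3)) (by ring))
  exact ⟨t, ht, h4, by rw [ht, h1]; simp⟩

variable [Module.Finite F V]

theorem move₁ (H : Geo ρ ε B f Γ) {X Y : Submodule F V} (hY : ND B Y) (hXY : X ≤ Y)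
    (h : 2 * (finrank F X + 5) < finrank F Y) {y y' : V} (hy : y ∈ Y) (hy' : y' ∈ Y) {φ : Dual F V}
    (hφ : ∀ x ∈ X, φ x = 0) (h1 : φ y = 1) (h2 : φ y' = 1) (h3 : ∀ x ∈ X, B x y = B x y')
    (h4 : f y y - f y' y' ∈ Γ) :
    ∃ a, Len (Ei ρ ε B f Γ) 1 a ∧ Low ρ Y a ∧ (∀ x ∈ X, ρ a x = x) ∧ ρ a y = y' := by
  have d1 := finrank_sup_single X y
  have d2 := finrank_sup_single (X ⊔ Submodule.span F {y}) y'
  obtain ⟨u, hu, -, hu1, hu2⟩ := H.solve (X := X ⊔ Submodule.span F {y} ⊔ Submodule.span F {y'}) hY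
    (sup_le (sup_le hXY ((Submodule.span_singleton_le_iff_mem _ _).2 hy))
      ((Submodule.span_singleton_le_iff_mem _ _).2 hy')) (by omega) φ 0
  have hu0 : f u u ∈ Γ := by simpa using hu2
  obtain ⟨t, ht, h5, h6⟩ := H.move₀ hu0 ((hu1 y (Submodule.mem_sup_left (Submodule.mem_sup_right
    (Submodule.mem_span_singleton_self _)))).trans h1) ((hu1 y' (Submodule.mem_sup_right
    (Submodule.mem_span_singleton_self _))).trans h2) h4
  refine ⟨t, Len.of_mem (Or.inl ⟨_, _, _, hu0, h5, ht⟩), fun s => ?_, fun x hx => ?_, h6⟩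
  · rw [ht, add_assoc, add_sub_cancel_left]
    exact Y.add_mem (Y.smul_mem _ (Y.sub_mem hy' hy)) (Y.smul_mem _ hu)
  · rw [ht, hu1 x (Submodule.mem_sup_left (Submodule.mem_sup_left hx)), hφ x hx]
    simp [h3 x hx]

theorem move (H : Geo ρ ε B f Γ) {X Y : Submodule F V} (hY : ND B Y) (hXY : X ≤ Y)
    (h : 2 * (finrank F X + 5) < finrank F Y) {y y' : V} (hy : y ∈ Y) (hy' : y' ∈ Y) (n1 : y ∉ X)
    (n2 : y' ∉ X) (h3 : ∀ x ∈ X, B x y = B x y') (h4 : f y y - f y' y' ∈ Γ) :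
    ∃ a, Len (Ei ρ ε B f Γ) 2 a ∧ Low ρ Y a ∧ (∀ x ∈ X, ρ a x = x) ∧ ρ a y = y' := by
  have d1 := finrank_sup_single X y
  have d2 := finrank_sup_single (X ⊔ Submodule.span F {y}) y'
  obtain ⟨w, hw, hw0, hw1, hw2⟩ := H.solve
    (X := X ⊔ Submodule.span F {y} ⊔ Submodule.span F {y'}) hY
    (sup_le (sup_le hXY ((Submodule.span_singleton_le_iff_mem _ _).2 hy))
      ((Submodule.span_singleton_le_iff_mem _ _).2 hy')) (by omega) (B.flip y) (f y y)
  have h5 : ∀ x ∈ X, B x w = B x y := fun x hx =>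
    hw1 x (Submodule.mem_sup_left (Submodule.mem_sup_left hx))
  obtain ⟨φ, p1, p2, p3⟩ := exists_fun₂ n1 (fun h => hw0 (Submodule.mem_sup_left h)) 1 1
  obtain ⟨ψ, q1, q2, q3⟩ := exists_fun₂ (y' := w) n2 (fun h => hw0
    ((sup_le_sup_right le_sup_left _ : X ⊔ Submodule.span F {y'} ≤ _) h)) 1 1
  obtain ⟨a, a1, a2, a3, a4⟩ := H.move₁ hY hXY h hy hw p1 p2 p3 (fun x hx => (h5 x hx).symm)
    (mem_of_eq (Γ.neg_mem hw2) (by ring))
  obtain ⟨b, b1, b2, b3, b4⟩ := H.move₁ hY hXY h hw hy' q1 q3 q2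
    (fun x hx => (h5 x hx).trans (h3 x hx)) (mem_of_eq (Γ.add_mem hw2 h4) (by ring))
  exact ⟨b * a, b1.mul a1, b2.mul a2, fun x hx => by rw [rho_mul, a3 x hx, b3 x hx],
    by rw [rho_mul, a4, b4]⟩

theorem pair (H : Geo ρ ε B f Γ) {Y : Submodule F V} (hY : ND B Y) (h : 12 < finrank F Y)
    {u z u' z' : V} (y1 : u ∈ Y) (y2 : z ∈ Y) (y3 : u' ∈ Y) (y4 : z' ∈ Y) (hu : u ≠ 0)
    (hz : z ∉ Submodule.span F {u}) (hu' : u' ≠ 0) (hz' : z' ∉ Submodule.span F {u'})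
    (g1 : f u u - f u' u' ∈ Γ) (g2 : B u z = B u' z') (g3 : f z z - f z' z' ∈ Γ) :
    ∃ a, Len (Ei ρ ε B f Γ) 4 a ∧ Low ρ Y a ∧ ρ a u = u' ∧ ρ a z = z' := by
  obtain ⟨a, a1, a2, -, a4⟩ := H.move (X := ⊥) hY bot_le (by simp; omega) y1 y3 (by simpa)
    (by simpa) (by simp) g1
  have d1 := finrank_single_le (F := F) u'
  obtain ⟨b, b1, b2, b3, b4⟩ := H.move (X := Submodule.span F {u'}) hY
    ((Submodule.span_singleton_le_iff_mem _ _).2 y3) (by omega) (a2.mem y2) y4 (fun h => by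
      obtain ⟨c, hc⟩ := Submodule.mem_span_singleton.1 h
      rw [← a4, ← map_smul] at hc
      exact hz (Submodule.mem_span_singleton.2 ⟨c, rho_inj ρ a hc⟩)) hz' (fun x hx => by
      obtain ⟨c, rfl⟩ := Submodule.mem_span_singleton.1 hx
      simp only [map_smul, LinearMap.smul_apply]
      rw [← g2, ← a4, H.iso]) (mem_of_eq (Γ.add_mem (H.qiso a z) g3) (by ring))
  exact ⟨b * a, b1.mul a1, b2.mul a2,
    by rw [rho_mul, a4, b3 u' (Submodule.mem_span_singleton_self _)], by rw [rho_mul, b4]⟩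

/-- Every element is a product of few Eichler transformations and an element of a small group. -/
theorem decomp [Finite F] (H : Geo ρ ε B f Γ) (d : ℕ) : ∀ Y : Submodule F V, ND B Y → finrank F Y ≤ d →
    ∃ K : Subgroup G, Finite K ∧ Nat.card K ≤ Nat.card F ^ (12 ^ 2) ∧
      ∀ g, Low ρ Y g → ∃ a, Len (Ei ρ ε B f Γ) (4 * d) a ∧ a⁻¹ * g ∈ K := by
  have base : ∀ Y : Submodule F V, ND B Y → finrank F Y ≤ 12 → ∃ K : Subgroup G, Finite K ∧
      Nat.card K ≤ Nat.card F ^ (12 ^ 2) ∧ ∀ g, Low ρ Y g → g ∈ K := by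
    intro Y hY h
    let K : Subgroup G :=
      { carrier := {g | Low ρ Y g}
        mul_mem' := fun ha hb => ha.mul hb
        one_mem' := fun s => by simp
        inv_mem' := fun ha => ha.inv }
    obtain ⟨h1, h2⟩ := card_le_of_inj (K := K) Y
      (fun g => (ρ g.1).restrict fun y hy => Low.mem g.2 hy) (fun g g' hgg => by
        have h3 : ∀ y ∈ Y, ρ g.1 y = ρ g'.1 y := fun y hy =>
          congrArg Subtype.val (LinearMap.congr_fun hgg ⟨y, hy⟩)
        refine Subtype.ext (H.inj (LinearMap.ext fun s => ?_))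
        have h4 : ρ g.1 s - ρ g'.1 s ∈ Y := by simpa using Y.sub_mem (g.2 s) (g'.2 s)
        by_contra hne
        obtain ⟨φ, -, h5⟩ := exists_fun (X := (⊥ : Submodule F V)) (y := ρ g.1 s - ρ g'.1 s)
          (by simpa [sub_eq_zero] using hne)
        obtain ⟨w, hf, hf'⟩ := hY φ
        have h6 := hf' _ h4
        obtain ⟨x, hx, rfl⟩ : ∃ x ∈ Y, w = ρ g.1 x := ⟨_, (Low.inv g.2).mem hf, by simp⟩
        rw [h5, map_sub, LinearMap.sub_apply, H.iso, h3 x hx, H.iso] at h6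
        simp at h6)
    exact ⟨K, h1, h2.trans (Nat.pow_le_pow_right Nat.card_pos (Nat.pow_le_pow_left h 2)),
      fun g hg => hg⟩
  induction d with
  | zero =>
    intro Y hY h
    obtain ⟨K, h1, h2, h3⟩ := base Y hY (by omega)
    exact ⟨K, h1, h2, fun g hg => ⟨1, Len.one _ _, by simpa using h3 g hg⟩⟩
  | succ d ih =>
    intro Y hY h
    by_cases h12 : finrank F Y ≤ 12
    · obtain ⟨K, h1, h2, h3⟩ := base Y hY h12
      exact ⟨K, h1, h2, fun g hg => ⟨1, Len.one _ _, by simpa using h3 g hg⟩⟩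
    obtain ⟨e, he, e', hf, hee, hff, hef, -⟩ := H.hyp (X := ⊥) hY bot_le (by simp; omega)
    replace hee := H.sing hee
    replace hff := H.sing hff
    have hfe : B e' e = ε := H.flip_one hef
    let Y' : Submodule F V := Y ⊓ LinearMap.ker (B.flip e) ⊓ LinearMap.ker (B.flip e')
    have hY' : ∀ y, y ∈ Y' ↔ y ∈ Y ∧ B y e = 0 ∧ B y e' = 0 := fun y => by simp [Y', and_assoc]
    have hlt : Y' < Y := lt_of_le_of_ne (fun y hy => ((hY' y).1 hy).1) fun h =>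
      zero_ne_one (((hY' e).1 (h ▸ he)).2.2.symm.trans hef)
    have := Submodule.finrank_lt_finrank_of_lt hlt
    obtain ⟨K, h1, h2, h3⟩ := ih Y' (fun φ => by
      obtain ⟨w, hw, hw'⟩ := hY φ
      refine ⟨w - B w e' • e - (ε * B w e) • e', (hY' _).2 ⟨Y.sub_mem (Y.sub_mem hw
        (Y.smul_mem _ he)) (Y.smul_mem _ hf), ?_, by simp [hef, hff]⟩, fun y hy => ?_⟩
      · simp only [map_sub, map_smul, LinearMap.sub_apply, LinearMap.smul_apply, smul_eq_mul, hee,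
          hfe]
        linear_combination -B w e * H.ee
      · obtain ⟨h4, h5, h6⟩ := (hY' y).1 hy
        simp [map_smulₛₗ, h5, h6, hw' y h4]) (by omega)
    refine ⟨K, h1, h2, fun g hg => ?_⟩
    have n1 : ∀ g : G, ρ g e ≠ 0 ∧ ρ g e' ∉ Submodule.span F {ρ g e} := fun g => by
      have h5 : B (ρ g e) (ρ g e') = 1 := by rw [H.iso, hef]
      refine ⟨fun h => by simp [h] at h5, fun h => ?_⟩
      obtain ⟨c, hc⟩ := Submodule.mem_span_singleton.1 h
      rw [← hc, map_smulₛₗ, H.iso, hee] at h5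
      simp at h5
    obtain ⟨a, a1, a2, a3, a4⟩ := H.pair hY (by omega) he hf (hg.mem he) (hg.mem hf)
      (by simpa using (n1 1).1) (by simpa using (n1 1).2) (n1 g).1 (n1 g).2
      (mem_of_eq (Γ.neg_mem (H.qiso g e)) (by ring)) (H.iso _ _ _).symm
      (mem_of_eq (Γ.neg_mem (H.qiso g e')) (by ring))
    have k1 : ρ (a⁻¹ * g) e = e := by rw [rho_mul, rho_inv_eq ρ a3]
    have k2 : ρ (a⁻¹ * g) e' = e' := by rw [rho_mul, rho_inv_eq ρ a4]
    obtain ⟨b, b1, b2⟩ := h3 (a⁻¹ * g) (fun s => (hY' _).2 ⟨(a2.inv.mul hg) s, by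
      rw [map_sub, LinearMap.sub_apply, sub_eq_zero]
      conv_lhs => rw [← k1, H.iso], by
      rw [map_sub, LinearMap.sub_apply, sub_eq_zero]
      conv_lhs => rw [← k2, H.iso]⟩)
    exact ⟨a * b, (a1.mul b1).mono (by omega), by simpa [mul_assoc] using b2⟩

/-- Any Gram matrix between a small subspace and the image of a small subspace occurs. -/
theorem gram (H : Geo ρ ε B f Γ) (P : V →ₗ[F] V →ₛₗ[σ] F) (W₁ W₂ : Submodule F V)
    (h : 2 * (finrank F W₁ + finrank F W₂ + 5) < finrank F V) :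
    ∃ a : G, ∀ w ∈ W₁, ∀ w' ∈ W₂, B w (ρ a w') = P w w' := by
  suffices ∃ a : G, (∀ w' ∈ W₂, ρ a w' ∈ W₁ → w' = 0) ∧
      ∀ w ∈ W₁, ∀ w' ∈ W₂, B w (ρ a w') = P w w' from this.imp fun _ h => h.2
  refine sub_induction W₂ (fun X => ∃ a : G, (∀ w' ∈ X, ρ a w' ∈ W₁ → w' = 0) ∧
    ∀ w ∈ W₁, ∀ w' ∈ X, B w (ρ a w') = P w w') ⟨1, by simp, by simp⟩ ?_
  rintro X y hXW - hyX ⟨a, ha1, ha2⟩
  have d1 := Submodule.finrank_map_le (ρ a) X
  have d2 := Submodule.finrank_mono hXW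
  have d3 := finrank_sup_le W₁ (X.map (ρ a))
  have hdisj : Disjoint (X.map (ρ a)) W₁ := by
    rw [Submodule.disjoint_def]
    rintro _ ⟨w, hw, rfl⟩ h
    rw [ha1 w hw h, map_zero]
  obtain ⟨C, hC, hcompl⟩ := hdisj.exists_isCompl
  let π : V →ₗ[F] V := W₁.subtype ∘ₗ Submodule.projectionOnto W₁ C hcompl.symm
  have hπ1 : ∀ w ∈ W₁, π w = w := fun w hw => by
    simpa [π] using congrArg Subtype.val
      (Submodule.projectionOnto_apply_left hcompl.symm ⟨w, hw⟩)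
  have hπ2 : ∀ w ∈ X.map (ρ a), π w = 0 := fun w hw => by
    simpa [π] using congrArg Subtype.val
      (Submodule.projectionOnto_apply_right hcompl.symm ⟨w, hC hw⟩)
  obtain ⟨y', -, n1, h1, h2⟩ := H.solve (X := W₁ ⊔ X.map (ρ a)) H.top le_top
    (by rw [finrank_top]; omega) (P.flip y ∘ₗ π + B.flip (ρ a y) ∘ₗ (LinearMap.id - π))
    (f (ρ a y) (ρ a y))
  obtain ⟨b, -, -, b3, b4⟩ := H.move (X := X.map (ρ a)) (y := ρ a y) (y' := y') H.top le_top
    (by rw [finrank_top]; omega) trivial trivial (by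
      rintro ⟨x, hx, hxy⟩
      exact hyX (rho_inj ρ a hxy ▸ hx)) (fun h => n1 (Submodule.mem_sup_right h))
    (fun x hx => by rw [h1 x (Submodule.mem_sup_right hx)]; simp [hπ2 x hx])
    (mem_of_eq (Γ.neg_mem h2) (by ring))
  have key : ∀ x ∈ X, ∀ c : F, ρ (b * a) (x + c • y) = ρ a x + c • y' := fun x hx c => by
    rw [rho_mul, map_add, map_add, map_smul, map_smul, b3 _ ⟨x, hx, rfl⟩, b4]
  refine ⟨b * a, fun s hs hz => ?_, fun w hw s hs => ?_⟩
  · obtain ⟨x, hx, c, rfl⟩ := mem_sup_single.1 hs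
    rw [key x hx] at hz
    by_cases hc : c = 0
    · subst hc
      simpa using ha1 x hx (by simpa using hz)
    · exfalso
      apply n1
      have : y' = c⁻¹ • (ρ a x + c • y') + -(c⁻¹ • ρ a x) := by
        simp [smul_smul, inv_mul_cancel₀ hc]
      rw [this]
      exact Submodule.add_mem_sup (W₁.smul_mem _ hz)
        (Submodule.neg_mem _ (Submodule.smul_mem _ _ ⟨x, hx, rfl⟩))
  · obtain ⟨x, hx, c, rfl⟩ := mem_sup_single.1 hs
    rw [key x hx, map_add, map_add, map_smulₛₗ, map_smulₛₗ, ha2 w hw x hx,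
      h1 w (Submodule.mem_sup_left hw)]
    simp [hπ1 w hw]

theorem gram_short (H : Geo ρ ε B f Γ) {S : Set G} {M Λ : ℕ} (T : Tools ρ S M Λ)
    (hn : M < finrank F V) (P : V →ₗ[F] V →ₛₗ[σ] F) (W₁ W₂ : Submodule F V)
    (h : 2 * (finrank F W₁ + finrank F W₂ + 5) ≤ M) :
    ∃ a : G, Len S Λ a ∧ ∀ w ∈ W₁, ∀ w' ∈ W₂, B w (ρ a w') = P w w' := by
  obtain ⟨a, ha⟩ := H.gram P W₁ W₂ (by omega)
  obtain ⟨g, hg, hc, -⟩ := T.mimic₂ B W₁ W₂ (by omega) (by omega) 0 0 a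
  exact ⟨g, hg, fun w hw w' hw' => (hc w hw w' hw').1.trans (ha w hw w' hw')⟩

end Geo

end Pool.Agent.P.MP_bed792_al
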