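import Pool.Agent.P.MP_bed792_al.FormB

set_option autoImplicit false

open Module

namespace Pool.Agent.P.MP_bed792_al

variable {G : Type*} [Group G] {F : Type*} [Field F] {V : Type*} [AddCommGroup V] [Module F V]

/-- `t` lies in the unipotent radical of the stabiliser of `u`, with vector part `z`. -/
def IsQ (ρ : Representation F G V) {σ : F →+* F} (B : V →ₗ[F] V →ₛₗ[σ] F) (u z : V) (t : G) :
    Prop := ∀ s, ∃ μ : F, ρ t s = s + B s u • z + μ • u

variable {ρ : Representation F G V} {σ : F →+* F} {ε : F} {B f : V →ₗ[F] V →ₛₗ[σ] F}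
  {Γ : AddSubgroup F}

theorem IsE.isQ {u z : V} {c : F} {t : G} (h : IsE ρ ε B u z c t) : IsQ ρ B u z t :=
  fun s => ⟨_, h s⟩

theorem IsQ.mul {u z z' : V} {t t' : G} (h : IsQ ρ B u z t) (h' : IsQ ρ B u z' t')
    (hu : B u u = 0) (hz : B z' u = 0) : IsQ ρ B u (z + z') (t * t') := fun s => by
  obtain ⟨μ', h1⟩ := h' s
  obtain ⟨μ, h2⟩ := h (ρ t' s)
  refine ⟨μ + μ', ?_⟩
  rw [rho_mul, h2, h1]
  simp only [map_add, map_smul, LinearMap.add_apply, LinearMap.smul_apply, hu, hz, smul_zero,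
    add_zero]
  module

theorem IsQ.inv {u z : V} {t : G} (h : IsQ ρ B u z t) (hu : B u u = 0) (hz : B z u = 0) :
    IsQ ρ B u (-z) t⁻¹ := fun s => by
  obtain ⟨μ, h1⟩ := h (ρ t⁻¹ s)
  rw [rho_apply_inv] at h1
  have h2 : B s u = B (ρ t⁻¹ s) u := by
    conv_lhs => rw [h1]
    simp [hu, hz]
  refine ⟨-μ, ?_⟩
  rw [h2]
  linear_combination (norm := module) -h1

theorem IsE.mul {u z z' : V} {c c' : F} {t t' : G} (h : IsE ρ ε B u z c t)
    (h' : IsE ρ ε B u z' c' t') (hu : B u u = 0) (hz : B z' u = 0) (hz' : B u z = 0) :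
    IsE ρ ε B u (z + z') (c + c' - ε * B z' z) (t * t') := fun s => by
  rw [rho_mul, h, h']
  simp only [map_add, map_smul, LinearMap.add_apply, LinearMap.smul_apply, smul_eq_mul, hu, hz, hz']
  module

theorem IsE.div {u z : V} {c c' : F} {t t' : G} (h : IsE ρ ε B u z c t)
    (h' : IsE ρ ε B u z c' t') (hu : B u u = 0) (hz : B z u = 0) :
    IsE ρ ε B u 0 (c - c') (t * t'⁻¹) := fun s => by
  obtain ⟨s, rfl⟩ : ∃ x, s = ρ t' x := ⟨ρ t'⁻¹ s, by simp⟩
  rw [rho_mul, rho_inv_apply, h, h']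
  simp only [map_add, map_smul, LinearMap.add_apply, LinearMap.smul_apply, smul_eq_mul, hu, hz,
    map_zero]
  module

namespace Geo

theorem uniq (H : Geo ρ ε B f Γ) {u z : V} {c : F} {t t' : G} (h : IsE ρ ε B u z c t)
    (h' : IsE ρ ε B u z c t') : t = t' := H.inj (LinearMap.ext fun s => by rw [h, h'])

theorem isQ_conj (H : Geo ρ ε B f Γ) {u z : V} {t : G} (h : IsQ ρ B u z t) (y : G) :
    IsQ ρ B (ρ y u) (ρ y z) (y * t * y⁻¹) := fun s => by
  obtain ⟨μ, h1⟩ := h (ρ y⁻¹ s)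
  refine ⟨μ, ?_⟩
  rw [rho_mul, rho_mul, h1, ← H.iso y, rho_apply_inv]
  simp

theorem isE_conj (H : Geo ρ ε B f Γ) {u z : V} {c : F} {t : G} (h : IsE ρ ε B u z c t) (y : G) :
    IsE ρ ε B (ρ y u) (ρ y z) c (y * t * y⁻¹) := fun s => by
  rw [rho_mul, rho_mul, h, ← H.iso y _ u, ← H.iso y _ z, rho_apply_inv]
  simp

theorem toE (H : Geo ρ ε B f Γ) {u z : V} {t : G} (h : IsQ ρ B u z t) (hu0 : u ≠ 0)
    (hu : B u u = 0) (hz : B z u = 0) : ∃ c, IsE ρ ε B u z c t := by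
  obtain ⟨r, hr⟩ := H.exists_one hu0
  have hr' : B u r = ε := H.flip_one hr
  obtain ⟨μ₀, h0⟩ := h r
  refine ⟨-ε * (σ μ₀ + B z r + B z z), fun s => ?_⟩
  obtain ⟨μ, h1⟩ := h s
  have h2 := H.iso t s r
  rw [h0, h1] at h2
  simp only [map_add, map_smul, map_smulₛₗ, LinearMap.add_apply, LinearMap.smul_apply,
    smul_eq_mul, hr, hr', hu, hz, H.orth hz, map_one] at h2
  rw [h1, show μ = -ε * (σ μ₀ + B z r + B z z) * B s u - ε * B s z by
    linear_combination ε * h2 - μ * H.ee]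

theorem center_mem (H : Geo ρ ε B f Γ) {u : V} {c : F} {t : G} (h : IsE ρ ε B u 0 c t)
    (hu0 : u ≠ 0) (hu : f u u ∈ Γ) : c ∈ Γ := by
  obtain ⟨r, hr⟩ := H.exists_one hu0
  have h1 := H.qiso t r
  have h2 : ρ t r = r + c • u := by rw [h, hr]; simp
  rw [h2] at h1
  refine mem_of_eq (Γ.sub_mem (Γ.sub_mem h1 (H.qadd r (c • u))) (H.sing_smul hu c)) ?_
  have : B (c • u) r = c * ε := by simp [H.flip_one hr]
  rw [this]
  linear_combination -c * H.ee

variable [Module.Finite F V] {S : Set G} {M Λ : ℕ}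

theorem q₀ (H : Geo ρ ε B f Γ) (T : Tools ρ S M Λ) (hn : M < finrank F V) (hM : 12 ≤ M) {u z : V}
    {t : G} {l : ℕ} (hu0 : u ≠ 0) (hu' : f u u ∈ Γ) (hz : B z u = 0)
    (hzu : z ∉ Submodule.span F {u}) (ht : IsQ ρ B u z t) (hl : Len S l t) {y₁ : V}
    (n1 : y₁ ∉ Submodule.span F {u} ⊔ Submodule.span F {z}) (i1 : f y₁ y₁ ∈ Γ) (o1 : B u y₁ = 0)
    (o2 : B z y₁ = 0) (θ : V →+ F) (κ : V →+ V →+ F) : ∃ y t', B y u = 0 ∧ θ y = θ y₁ ∧
      κ y y = κ y₁ y₁ ∧ IsE ρ ε B u y 0 t' ∧ Len S (4 * Λ + 4 * l) t' := by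
  have hu := H.sing hu'
  obtain ⟨c, hE⟩ := H.toE ht hu0 hu hz
  set X := Submodule.span F {u} ⊔ Submodule.span F {z} with hX
  have mu : u ∈ X := Submodule.mem_sup_left (Submodule.mem_span_singleton_self _)
  have mz : z ∈ X := Submodule.mem_sup_right (Submodule.mem_span_singleton_self _)
  have d0 := finrank_single_le (F := F) u
  have d1 : finrank F X ≤ _ := finrank_sup_single (Submodule.span F {u}) z
  obtain ⟨φ, f1, f2, f3⟩ := exists_fun₂ hzu n1 (-ε) 0
  have d2 := finrank_sup_single X y₁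
  have my : y₁ ∈ X ⊔ Submodule.span F {y₁} :=
    Submodule.mem_sup_right (Submodule.mem_span_singleton_self _)
  obtain ⟨y₂, -, n2, s1, s2⟩ := H.solve (X := X ⊔ Submodule.span F {y₁}) H.top le_top
    (by rw [finrank_top]; omega) φ (f z z)
  obtain ⟨a, -, -, a1, a2⟩ := H.pair H.top (by rw [finrank_top]; omega) trivial trivial trivial
    trivial hu0 hzu (u' := y₁) (z' := y₂) (fun h => n1 (h ▸ X.zero_mem))
    (fun h => n2 (Submodule.mem_sup_right h)) (Γ.sub_mem hu' i1)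
    (by rw [H.orth hz, s1 _ my, f3]) (mem_of_eq (Γ.neg_mem s2) (by ring))
  obtain ⟨h, hh, hc, hθ', hκ'⟩ := T.mimic₃ B X X (by omega) (by omega) θ κ u a
  have k1 : B u (ρ h u) = 0 := by rw [(hc u mu u mu).1, a1, o1]
  have k2 : B u (ρ h z) = 0 := by
    rw [(hc u mu z mz).1, a2, s1 _ (Submodule.mem_sup_left mu),
      f1 _ (Submodule.mem_span_singleton_self _)]
  have k3 : B z (ρ h u) = 0 := by rw [(hc z mz u mu).1, a1, o2]
  have k4 : B z (ρ h z) = -ε := by rw [(hc z mz z mz).1, a2, s1 _ (Submodule.mem_sup_left mz), f2]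
  have k5 := H.isE_conj hE h
  have k6 := H.isE_conj hE (h * t * h⁻¹)
  rw [k5 u, k5 z, k1, k2, k3, k4] at k6
  simp only [zero_smul, add_zero, mul_zero, sub_zero, zero_sub, mul_neg, neg_neg, H.ee,
    one_smul] at k6
  refine ⟨ρ h u, (h * t * h⁻¹) * t * (h * t * h⁻¹)⁻¹ * t⁻¹, H.orth k1, by rw [hθ', a1],
    by rw [hκ', a1], fun s => ?_, (((hh.conj hl).conj hl).mul hl.inv).mono (by omega)⟩
  obtain ⟨s, rfl⟩ : ∃ x, s = ρ t x := ⟨ρ t⁻¹ s, by simp⟩
  rw [rho_mul, rho_inv_apply, k6, hE]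
  simp only [map_add, map_smul, LinearMap.add_apply, LinearMap.smul_apply, smul_eq_mul, hu, hz,
    k1, k3]
  module

theorem q₁ (H : Geo ρ ε B f Γ) (T : Tools ρ S M Λ) (hn : M < finrank F V) (hM : 12 ≤ M) {u z : V}
    {t : G} {l : ℕ} (hu0 : u ≠ 0) (hu' : f u u ∈ Γ) (hz : B z u = 0)
    (hzu : z ∉ Submodule.span F {u}) (ht : IsQ ρ B u z t) (hl : Len S l t) {z' : V}
    (h1 : B z' u = 0) (h2 : B z' z = 0) :
    ∃ t', IsQ ρ B u z' t' ∧ Len S (Λ * (4 * Λ + 4 * l)) t' := by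
  have hu := H.sing hu'
  set X := Submodule.span F {u} ⊔ Submodule.span F {z} with hX
  have mu : u ∈ X := Submodule.mem_sup_left (Submodule.mem_span_singleton_self _)
  have mz : z ∈ X := Submodule.mem_sup_right (Submodule.mem_span_singleton_self _)
  have d0 := finrank_single_le (F := F) u
  have d1 : finrank F X ≤ _ := finrank_sup_single (Submodule.span F {u}) z
  refine (T.add (fun L y => B y u = 0 ∧ ∃ t', IsQ ρ B u y t' ∧ Len S L t')
    (fun a b z hab h => ⟨h.1, h.2.imp fun _ h => ⟨h.1, h.2.mono hab⟩⟩)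
    ⟨by simp, 1, fun s => ⟨0, by simp⟩, Len.one _ _⟩
    (fun a b z y ⟨h1, t₁, h2, h3⟩ ⟨h4, t₂, h5, h6⟩ =>
      ⟨by simp [h1, h4], t₁ * t₂, h2.mul h5 hu h4, h3.mul h6⟩)
    {y | B y u = 0 ∧ ∃ t', IsQ ρ B u y t' ∧ Len S (4 * Λ + 4 * l) t'} _ (fun z hz => hz) z' ?_).2
  intro θ hθ
  obtain ⟨y₁, n1, i1, o1, o2, hθ1⟩ : ∃ y₁, y₁ ∉ X ∧ f y₁ y₁ ∈ Γ ∧ B u y₁ = 0 ∧ B z y₁ = 0 ∧
      θ y₁ ≠ 0 := by
    have d2 := finrank_sup_single X z'
    obtain ⟨e, -, e', -, hee, hff, hef, ho⟩ := H.hyp (X := X ⊔ Submodule.span F {z'}) H.top le_top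
      (by rw [finrank_top]; omega)
    obtain ⟨p1, p2⟩ := ho u (Submodule.mem_sup_left mu)
    obtain ⟨p3, p4⟩ := ho z (Submodule.mem_sup_left mz)
    obtain ⟨p5, p6⟩ := ho z' (Submodule.mem_sup_right (Submodule.mem_span_singleton_self _))
    have h3 := H.q_hyp hee hff hef p5 p6 (-f z' z')
    rw [add_neg_cancel, sub_zero] at h3
    generalize -f z' z' = τ at h3
    by_cases c1 : θ e = 0
    · by_cases c2 : θ (τ • e') = 0
      · refine ⟨z' + e + τ • e', fun hx => ?_, h3, by simp [map_smulₛₗ, p1, p2, H.orth h1],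
          by simp [map_smulₛₗ, p3, p4, H.orth h2], by simpa [c1, c2] using hθ⟩
        simpa [p6, hef, H.sing hff] using (ho _ (Submodule.mem_sup_left hx)).2
      · refine ⟨_, fun hx => c2 ?_, H.sing_smul hff τ, by simp [map_smulₛₗ, p2],
          by simp [map_smulₛₗ, p4], c2⟩
        have h3 := (ho _ (Submodule.mem_sup_left hx)).1
        simp only [map_smul, LinearMap.smul_apply, smul_eq_mul, H.flip_one hef] at h3
        rw [show τ = 0 by linear_combination ε * h3 - τ * H.ee]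
        simp
    · exact ⟨e, fun hx => by simpa [hef] using (ho _ (Submodule.mem_sup_left hx)).2, hee, p1, p3, c1⟩
  obtain ⟨y, t', k1, k2, -, k3, k4⟩ := H.q₀ T hn hM hu0 hu' hz hzu ht hl n1 i1 o1 o2 θ 0
  exact ⟨y, ⟨k1, t', k3.isQ, k4⟩, by rwa [k2]⟩

theorem q₂ [Finite F] (H : Geo ρ ε B f Γ) (T : Tools ρ S M Λ) (hn : M < finrank F V) (hM : 12 ≤ M) {u z : V}
    {t : G} (hu0 : u ≠ 0) (hu : f u u ∈ Γ) (hz : B z u = 0)
    (hzu : z ∉ Submodule.span F {u}) (ht : IsQ ρ B u z t) (hl : Len S (68 * Λ) t) {z' : V}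
    (h1 : B z' u = 0) : ∃ t', IsQ ρ B u z' t' ∧ Len S (1384 * Λ ^ 3) t' := by
  have hΛ := T.one_le
  have d0 := finrank_single_le (F := F) u
  have d1 := finrank_sup_single (Submodule.span F {u}) z
  obtain ⟨z₂, -, n2, o2⟩ := pick B (X := Submodule.span F {u} ⊔ Submodule.span F {z}) (Y := ⊤)
    (by rw [finrank_top]; omega)
  have p1 := o2 u (Submodule.mem_sup_left (Submodule.mem_span_singleton_self _))
  have p2 := o2 z (Submodule.mem_sup_right (Submodule.mem_span_singleton_self _))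
  obtain ⟨t₂, q1, q2⟩ := H.q₁ T hn hM hu0 hu hz hzu ht hl p1 p2
  obtain ⟨φ, f1, f2, f3⟩ := exists_fun₂ hzu n2 1 0
  obtain ⟨d, hd⟩ := H.nd φ
  have e1 : B d u = 0 := H.orth ((hd u).trans (f1 _ (Submodule.mem_span_singleton_self _)))
  have e2 : B d z = ε := by rw [H.symm, hd, f2]; simp
  have e3 : B d z₂ = 0 := H.orth ((hd z₂).trans f3)
  obtain ⟨ta, a1, a2⟩ := H.q₁ T hn hM hu0 hu hz hzu ht hl (z' := z' - (ε * B z' z) • d)
    (by simp [h1, e1]) (by
      simp only [map_sub, map_smul, LinearMap.sub_apply, LinearMap.smul_apply, smul_eq_mul, e2]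
      linear_combination -B z' z * H.ee)
  obtain ⟨tb, b1, b2⟩ := H.q₁ T hn hM hu0 hu p1 (fun h => n2 (Submodule.mem_sup_left h)) q1 q2
    (z' := (ε * B z' z) • d) (by simp [e1]) (by simp [e3])
  refine ⟨ta * tb, by simpa using a1.mul b1 (H.sing hu) (by simp [e1]), (a2.mul b2).mono ?_⟩
  have e1 : Λ ^ 2 ≤ Λ ^ 3 := Nat.pow_le_pow_right hΛ (by omega)
  nlinarith

theorem q₃ (H : Geo ρ ε B f Γ) (T : Tools ρ S M Λ) (hn : M < finrank F V) (hM : 12 ≤ M) {u z₀ : V}
    {t₀ : G} {l L : ℕ} (hu0 : u ≠ 0) (hu' : f u u ∈ Γ) (hz₀ : B z₀ u = 0)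
    (hzu : z₀ ∉ Submodule.span F {u}) (ht₀ : IsQ ρ B u z₀ t₀) (hl : Len S l t₀)
    (hL : 4 * Λ + 4 * l ≤ L) (hall : ∀ z, B z u = 0 → ∃ t, IsQ ρ B u z t ∧ Len S L t) {z : V}
    {t : G} (hz : B z u = 0) (ht : IsQ ρ B u z t) : Len S (Λ * (4 * L) + L) t := by
  have hu := H.sing hu'
  have hall' : ∀ z, ∃ c t, B z u = 0 → IsE ρ ε B u z c t ∧ Len S L t := fun z => by
    by_cases h : B z u = 0
    · obtain ⟨t, h1, h2⟩ := hall z h
      obtain ⟨c, h3⟩ := H.toE h1 hu0 hu h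
      exact ⟨c, t, fun _ => ⟨h3, h2⟩⟩
    · exact ⟨0, 1, fun h' => absurd h' h⟩
  choose c T' hT using hall'
  obtain ⟨c₁, h1⟩ := H.toE ht hu0 hu hz
  have h2 := h1.div (hT z hz).1 hu hz
  have h3 := H.center_mem h2 hu0 hu'
  generalize c₁ - c z = lam at h2 h3
  obtain ⟨c', t', h4, h5, h6⟩ := T.add
    (fun L y => ∃ c t, y = c • u ∧ IsE ρ ε B u 0 c t ∧ Len S L t)
    (fun a b z hab ⟨c, t, h1, h2, h3⟩ => ⟨c, t, h1, h2, h3.mono hab⟩)
    ⟨0, 1, by simp, fun s => by simp, Len.one _ _⟩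
    (fun a b z y ⟨c₁, t₁, h1, h2, h3⟩ ⟨c₂, t₂, h4, h5, h6⟩ => ⟨c₁ + c₂, t₁ * t₂,
      by rw [h1, h4, add_smul], by simpa using h2.mul h5 hu (by simp) (by simp), h3.mul h6⟩)
    {y | ∃ c t, y = c • u ∧ IsE ρ ε B u 0 c t ∧ Len S (4 * L) t} _ (fun z hz => hz) (lam • u) (by
      intro θ hθ
      by_contra hcon
      let τ : F →+ F := θ.comp (LinearMap.toSpanSingleton F V u).toAddMonoidHom
      have hτ : ∀ z c c' t t', B z u = 0 → IsE ρ ε B u z c t → IsE ρ ε B u z c' t' →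
          Len S (2 * L) t → Len S (2 * L) t' → τ c = τ c' := by
        intro z c c' t t' a1 a2 a3 a4 a5
        rw [← sub_eq_zero, ← map_sub]
        by_contra hne
        exact hcon ⟨_, ⟨_, _, rfl, a2.div a3 hu a1, (a4.mul a5.inv).mono (by omega)⟩, hne⟩
      have hmul : ∀ z z', B z u = 0 → B z' u = 0 →
          τ (c (z + z')) = τ (c z + c z' - ε * B z' z) := fun z z' a1 a2 =>
        hτ _ _ _ _ _ (by simp [a1, a2]) (hT _ (by simp [a1, a2])).1
          ((hT z a1).1.mul (hT z' a2).1 hu a2 (H.orth a1))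
          ((hT _ (by simp [a1, a2])).2.mono (by omega))
          (((hT z a1).2.mul (hT z' a2).2).mono (by omega))
      set X := Submodule.span F {u} ⊔ Submodule.span F {z₀} with hX
      have mu : u ∈ X := Submodule.mem_sup_left (Submodule.mem_span_singleton_self _)
      have mz : z₀ ∈ X := Submodule.mem_sup_right (Submodule.mem_span_singleton_self _)
      have d0 := finrank_single_le (F := F) u
      have d1 : finrank F X ≤ _ := finrank_sup_single (Submodule.span F {u}) z₀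
      obtain ⟨e, -, e', -, hee, hff, hef, ho⟩ := H.hyp (X := X) H.top le_top
        (by rw [finrank_top]; omega)
      obtain ⟨p1, p2⟩ := ho u mu
      obtain ⟨p3, p4⟩ := ho z₀ mz
      have hmin : ∀ b, τ (ε * b - σ b) = 0 := fun b => by
        have a1 : B (b • e) u = 0 := by simp [H.orth p1]
        have a2 := hmul _ _ a1 (H.orth p2)
        have a3 := hmul _ _ (H.orth p2) a1
        have a4 : B (b • e) e' = b := by simp [hef]
        rw [add_comm e', a2, H.symm e', a4, ← sub_eq_zero, ← map_sub] at a3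
        rw [← a3]
        congr 1
        linear_combination σ b * H.ee
      obtain ⟨r, hr⟩ := H.exists_one hu0
      have hπ : ∀ s, B (s - B s u • r) u = 0 := fun s => by simp [hr]
      let Θ : V →+ F := AddMonoidHom.mk' (fun s => τ (c (s - B s u • r)) +
        τ (f (s - B s u • r) (s - B s u • r))) (fun s s' => by
          have : s + s' - B (s + s') u • r = (s - B s u • r) + (s' - B s' u • r) := by
            simp only [map_add, LinearMap.add_apply]; module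
          rw [this, hmul _ _ (hπ s) (hπ s'), H.qadd', map_add τ _ (_ - _), hmin]
          simp only [map_add τ, map_sub τ]
          ring)
      let κ : V →+ V →+ F := AddMonoidHom.mk' (fun x => τ.comp (f x).toAddMonoidHom)
        (fun x y => by ext; simp)
      have key : ∀ y₁, y₁ ∉ X → f y₁ y₁ ∈ Γ → B u y₁ = 0 → B z₀ y₁ = 0 → Θ y₁ = τ (f y₁ y₁) := by
        intro y₁ a1 a2 a3 a4
        obtain ⟨y, t', k1, k2, k3, k4, k5⟩ := H.q₀ T hn hM hu0 hu' hz₀ hzu ht₀ hl a1 a2 a3 a4 Θ κ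
        have k6 := hτ _ _ _ _ _ k1 (hT y k1).1 k4 ((hT y k1).2.mono (by omega)) (k5.mono (by omega))
        rw [← k2]
        change τ (c (y - B y u • r)) + τ (f (y - B y u • r) (y - B y u • r)) = _
        rw [k1, zero_smul, sub_zero, k6, map_zero, zero_add]
        exact k3
      have hlam : lam ≠ 0 := by rintro rfl; simp at hθ
      have b0 : B (lam • e') e = lam * ε := by simp [H.flip_one hef]
      have b1 := key e (fun hx => by simpa [hef] using (ho _ hx).2) hee p1 p3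
      have b2 := key (lam • e') (fun hx => hlam (by
        have := (ho _ hx).1
        rw [b0] at this
        linear_combination ε * this - lam * H.ee)) (H.sing_smul hff lam) (by simp [map_smulₛₗ, p2])
        (by simp [map_smulₛₗ, p4])
      have b3 := key (e + lam • e') (fun hx => by simpa [hef, H.sing hff] using (ho _ hx).2)
        (by simpa using Γ.add_mem (H.q_hyp (w := 0) hee hff hef (by simp) (by simp) lam) h3)
        (by simp [map_smulₛₗ, p1, p2]) (by simp [map_smulₛₗ, p3, p4])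
      rw [map_add, b1, b2, H.qadd', map_add τ _ (_ - _), hmin, b0, map_add τ, map_add τ,
        show ε * (lam * ε) = lam by linear_combination lam * H.ee] at b3
      exact hθ (show τ lam = 0 by linear_combination -b3))
  rw [← smul_left_injective F hu0 h4, ← H.uniq h2 h5] at *
  simpa using h6.mul (hT z hz).2

theorem q₄ (H : Geo ρ ε B f Γ) (T : Tools ρ S M Λ) (hn : M < finrank F V) (hM : 12 ≤ M) {u : V}
    {L : ℕ} (hu0 : u ≠ 0) (hu : f u u ∈ Γ)
    (hall : ∀ z t, B z u = 0 → IsQ ρ B u z t → Len S L t) {t : G} (ht : t ∈ Ei ρ ε B f Γ) :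
    Len S (4 * Λ + 3 * L) t := by
  obtain ⟨w, z, c, hw, hz, ht⟩ := ht
  have hconj : ∀ (u : V) (L L' : ℕ) (y : G), (∀ z t, B z u = 0 → IsQ ρ B u z t → Len S L t) →
      Len S L' y → ∀ z t, B z (ρ y u) = 0 → IsQ ρ B (ρ y u) z t → Len S (2 * L' + L) t := by
    intro u L L' y h hy z t h1 h2
    have h3 := H.isQ_conj h2 y⁻¹
    rw [rho_inv_apply] at h3
    have := hy.conj (h _ _ (by rw [← H.iso y, rho_apply_inv, h1]) h3)
    simpa [mul_assoc] using this
  by_cases hwu : w ∈ Submodule.span F {u}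
  · obtain ⟨a, rfl⟩ := Submodule.mem_span_singleton.1 hwu
    refine (hall (σ a • z) t (by simpa [map_smulₛₗ] using hz) fun s => ?_).mono (by omega)
    obtain ⟨μ, h1⟩ := ht.isQ s
    exact ⟨μ * a, by rw [h1, map_smulₛₗ]; simp [smul_smul, mul_comm]⟩
  set X := Submodule.span F {u} ⊔ Submodule.span F {w} with hX
  have mu : u ∈ X := Submodule.mem_sup_left (Submodule.mem_span_singleton_self _)
  have mw : w ∈ X := Submodule.mem_sup_right (Submodule.mem_span_singleton_self _)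
  have d0 := finrank_single_le (F := F) u
  have d1 : finrank F X ≤ _ := finrank_sup_single (Submodule.span F {u}) w
  obtain ⟨φ, -, f2, f3⟩ := exists_fun₂ (X := (⊥ : Submodule F V)) (y := u) (y' := w) (by simpa)
    (by simpa) 1 1
  obtain ⟨y, -, n1, s1, s2⟩ := H.solve (X := X) H.top le_top (by rw [finrank_top]; omega) φ
    (f u u)
  obtain ⟨a, -, -, -, a1⟩ := H.move (X := ⊥) (y := u) (y' := y) H.top le_top (by simp; omega)
    trivial trivial (by simpa) (fun h => n1 ((Submodule.mem_bot F).1 h ▸ X.zero_mem)) (by simp)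
    (mem_of_eq (Γ.neg_mem s2) (by ring))
  obtain ⟨h, hh, hc, -⟩ := T.mimic₂ B X (Submodule.span F {u}) (by omega) (by omega) 0 0 a
  have k1 : B u (ρ h u) = 1 := by
    rw [(hc u mu u (Submodule.mem_span_singleton_self _)).1, a1, s1 u mu, f2]
  have k2 : B w (ρ h u) = 1 := by
    rw [(hc w mw u (Submodule.mem_span_singleton_self _)).1, a1, s1 w mw, f3]
  obtain ⟨E, e1, e2, e3⟩ := H.move₀ (mem_of_eq (Γ.add_mem (H.qiso h u) hu) (by ring)) k1 k2
    (Γ.sub_mem hu hw)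
  have k3 := hconj u L Λ h hall hh _ _ e2 e1.isQ
  exact (hconj u L _ E hall k3 z t (by rwa [e3]) (by rw [e3]; exact ht.isQ)).mono (by omega)

/-- In large dimension all Eichler transformations lie in the commutator subgroup. -/
theorem mem_commutator (H : Geo ρ ε B f Γ) (hn : 12 < finrank F V) {u z : V} {c : F} {t : G}
    (hu' : f u u ∈ Γ) (hz : B z u = 0) (ht : IsE ρ ε B u z c t) : t ∈ commutator G := by
  by_cases hu0 : u = 0
  · rw [H.inj (show ρ t = ρ 1 from LinearMap.ext fun s => by simp [ht s, hu0])]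
    exact Subgroup.one_mem _
  have hu := H.sing hu'
  have hyp : ∀ z : V, ∃ e e', f e e ∈ Γ ∧ f e' e' ∈ Γ ∧ B e e' = 1 ∧ B u e = 0 ∧ B u e' = 0 ∧
      B z e = 0 ∧ B z e' = 0 := fun z => by
    have d0 := finrank_single_le (F := F) u
    have d1 := finrank_sup_single (Submodule.span F {u}) z
    obtain ⟨e, -, e', -, hee, hff, hef, ho⟩ := H.hyp
      (X := Submodule.span F {u} ⊔ Submodule.span F {z}) H.top le_top (by rw [finrank_top]; omega)
    obtain ⟨p1, p2⟩ := ho u (Submodule.mem_sup_left (Submodule.mem_span_singleton_self _))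
    obtain ⟨p3, p4⟩ := ho z (Submodule.mem_sup_right (Submodule.mem_span_singleton_self _))
    exact ⟨e, e', hee, hff, hef, p1, p2, p3, p4⟩
  have h1 : ∀ z, f z z ∈ Γ → B z u = 0 → ∃ d ∈ commutator G, IsE ρ ε B u z 0 d := by
    intro z a1 a2
    obtain ⟨e, e', hee, hff, hef, p1, p2, p3, p4⟩ := hyp z
    obtain ⟨t₁, k1⟩ := H.ex u e' 0 hu' (H.orth p2) (by simpa using hff)
    obtain ⟨y, k2⟩ := H.ex z (-e) 0 a1 (by simp [H.orth p3])
      (by simpa using hee)
    have k3 := H.isE_conj k1 y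
    have k4 : ρ y u = u := by rw [k2]; simp [H.orth a2, p1]
    have k5 : ρ y e' = e' + z := by rw [k2]; simp [H.orth p4, H.flip_one hef, H.ee]
    rw [k4, k5] at k3
    refine ⟨y * t₁ * y⁻¹ * t₁⁻¹,
      Subgroup.commutator_mem_commutator (Subgroup.mem_top y) (Subgroup.mem_top t₁), fun s => ?_⟩
    obtain ⟨s, rfl⟩ : ∃ x, s = ρ t₁ x := ⟨ρ t₁⁻¹ s, by simp⟩
    rw [rho_mul, rho_inv_apply, k3, k1]
    simp only [map_add, map_smul, LinearMap.add_apply, LinearMap.smul_apply, smul_eq_mul, hu,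
      H.orth p2, H.orth p4, H.orth a2]
    module
  have h2 : ∀ c t, IsE ρ ε B u 0 c t → t ∈ commutator G := by
    intro c t ht
    have a1 := H.center_mem ht hu0 hu'
    obtain ⟨e, e', hee, hff, hef, p1, p2, -⟩ := hyp 0
    have b1 : B (c • e') u = 0 := by simp [H.orth p2]
    obtain ⟨d₁, m1, k1⟩ := h1 e hee (H.orth p1)
    obtain ⟨d₂, m2, k2⟩ := h1 (c • e') (H.sing_smul hff c) b1
    obtain ⟨d₃, m3, k3⟩ := h1 (e + c • e')
      (by simpa using Γ.add_mem (H.q_hyp (w := 0) hee hff hef (by simp) (by simp) c) a1)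
      (by simp [H.orth p1, H.orth p2])
    have k4 := k3.div (k1.mul k2 hu b1 p1) hu (by simp [H.orth p1, H.orth p2])
    have : 0 - (0 + 0 - ε * B (c • e') e) = c := by
      simp only [map_smul, LinearMap.smul_apply, smul_eq_mul, H.flip_one hef]
      linear_combination c * H.ee
    rw [this] at k4
    rw [H.uniq ht k4]
    exact Subgroup.mul_mem _ m3 (Subgroup.inv_mem _ (Subgroup.mul_mem _ m1 m2))
  obtain ⟨e, e', hee, hff, hef, p1, p2, p3, p4⟩ := hyp z
  have h3 := H.q_hyp hee hff hef p3 p4 (-f z z)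
  rw [add_neg_cancel, sub_zero] at h3
  generalize -f z z = τ at h3
  obtain ⟨d₁, m1, k1⟩ := h1 _ h3 (by simp [hz, H.orth p1, H.orth p2])
  obtain ⟨d₂, m2, k2⟩ := h1 (-e) (by simpa using hee) (by simp [H.orth p1])
  obtain ⟨d₃, m3, k3⟩ := h1 (-(τ • e')) (by rw [← neg_smul]; exact H.sing_smul hff _)
    (by simp [H.orth p2])
  have k4 := (k1.mul k2 hu (by simp [H.orth p1]) (by simp [map_smulₛₗ, H.orth hz, p1, p2])).mul k3
    hu (by simp [H.orth p2]) (by simp [map_smulₛₗ, H.orth hz, p1, p2])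
  rw [show z + e + τ • e' + -e + -(τ • e') = z by abel] at k4
  have := Subgroup.mul_mem _ (h2 _ _ (ht.div k4 hu hz))
    (Subgroup.mul_mem _ (Subgroup.mul_mem _ m1 m2) m3)
  rwa [inv_mul_cancel_right] at this

end Geo

end Pool.Agent.P.MP_bed792_al
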