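import Pool.Agent.P.MP_bed792_al.Tools

set_option autoImplicit false

open Module

namespace Pool.Agent.P.MP_bed792_al

variable {G : Type*} [Group G] {F : Type*} [Field F] {V : Type*} [AddCommGroup V] [Module F V]

@[simp] theorem rho_inv_apply (ρ : Representation F G V) (g : G) (s : V) : ρ g⁻¹ (ρ g s) = s := by
  rw [← Module.End.mul_apply, ← map_mul]; simp

@[simp] theorem rho_apply_inv (ρ : Representation F G V) (g : G) (s : V) : ρ g (ρ g⁻¹ s) = s := by
  rw [← Module.End.mul_apply, ← map_mul]; simp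

theorem rho_mul (ρ : Representation F G V) (g h : G) (s : V) : ρ (g * h) s = ρ g (ρ h s) := by
  rw [map_mul]; rfl

theorem rho_inj (ρ : Representation F G V) (g : G) : Function.Injective (ρ g) := fun x y h => by
  simpa using congrArg (ρ g⁻¹) h

theorem rho_inv_eq (ρ : Representation F G V) {g : G} {x y : V} (h : ρ g x = y) : ρ g⁻¹ y = x := by
  rw [← h]; simp

theorem exists_notMem [Module.Finite F V] {U Z : Submodule F V} (h : finrank F Z < finrank F U) :
    ∃ y ∈ U, y ∉ Z := by
  by_contra hc
  push Not at hc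
  exact absurd (Submodule.finrank_mono (show U ≤ Z from hc)) (by omega)

theorem finrank_sup_le [Module.Finite F V] (U Z : Submodule F V) :
    finrank F (U ⊔ Z : Submodule F V) ≤ finrank F U + finrank F Z :=
  Submodule.finrank_add_le_finrank_add_finrank U Z

theorem finrank_single_le (y : V) : finrank F (Submodule.span F {y}) ≤ 1 := by
  have := finrank_span_finset_le_card (R := F) ({y} : Finset V)
  rwa [Finset.coe_singleton, Finset.card_singleton] at this

theorem finrank_sup_single [Module.Finite F V] (U : Submodule F V) (y : V) :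
    finrank F (U ⊔ Submodule.span F {y} : Submodule F V) ≤ finrank F U + 1 :=
  (finrank_sup_le _ _).trans (by have := finrank_single_le (F := F) y; omega)

theorem mem_sup_single {U : Submodule F V} {y s : V} :
    s ∈ U ⊔ Submodule.span F {y} ↔ ∃ x ∈ U, ∃ c : F, s = x + c • y := by
  rw [Submodule.mem_sup]
  constructor
  · rintro ⟨x, hx, z, hz, rfl⟩
    obtain ⟨c, rfl⟩ := Submodule.mem_span_singleton.1 hz
    exact ⟨x, hx, c, rfl⟩
  · rintro ⟨x, hx, c, rfl⟩
    exact ⟨x, hx, _, Submodule.mem_span_singleton.2 ⟨c, rfl⟩, rfl⟩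

theorem exists_fun {X : Submodule F V} {y : V} (hy : y ∉ X) :
    ∃ φ : Dual F V, (∀ x ∈ X, φ x = 0) ∧ φ y = 1 := by
  obtain ⟨f, hf, hle⟩ := Submodule.exists_le_ker_of_notMem hy
  exact ⟨(f y)⁻¹ • f, fun x hx => by simp [LinearMap.mem_ker.1 (hle hx)], by simp [hf]⟩

theorem exists_fun₂ {X : Submodule F V} {y y' : V} (hy : y ∉ X)
    (hy' : y' ∉ X ⊔ Submodule.span F {y}) (a b : F) :
    ∃ φ : Dual F V, (∀ x ∈ X, φ x = 0) ∧ φ y = a ∧ φ y' = b := by
  obtain ⟨f, hf, hf1⟩ := exists_fun hy
  obtain ⟨g, hg, hg1⟩ := exists_fun hy'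
  have hgy : g y = 0 := hg y (Submodule.mem_sup_right (Submodule.mem_span_singleton_self y))
  refine ⟨a • f + (b - a * f y') • g, fun x hx => ?_, by simp [hf1, hgy], by simp [hg1]⟩
  simp [hf x hx, hg x (Submodule.mem_sup_left hx)]

/-- Induction over the dimension of a subspace. -/
theorem sub_induction [Module.Finite F V] (W : Submodule F V) (P : Submodule F V → Prop)
    (h0 : P ⊥) (hs : ∀ X y, X ≤ W → y ∈ W → y ∉ X → P X → P (X ⊔ Submodule.span F {y})) : P W := by
  classical
  obtain ⟨t, ht, -, hspan, -⟩ := Submodule.exists_finset_span_eq_linearIndepOn F (W : Set V)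
  rw [Submodule.span_eq] at hspan
  have key : ∀ u : Finset V, (u : Set V) ⊆ W → P (Submodule.span F (u : Set V)) := by
    intro u
    induction u using Finset.induction_on with
    | empty => intro _; simpa using h0
    | insert y u _ ih =>
      intro hu
      have hu' : (u : Set V) ⊆ W := fun x hx => hu (by simp [hx])
      rw [Finset.coe_insert]
      by_cases hy : y ∈ Submodule.span F (u : Set V)
      · rw [Submodule.span_insert_eq_span hy]; exact ih hu'
      · rw [Submodule.span_insert, sup_comm]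
        exact hs _ y (Submodule.span_le.2 hu') (hu (by simp)) hy (ih hu')
  exact hspan ▸ key t ht

theorem card_le_of_inj [Finite F] [Module.Finite F V] {K : Type*} (Y : Submodule F V)
    (f : K → (Y →ₗ[F] Y)) (hf : Function.Injective f) :
    Finite K ∧ Nat.card K ≤ Nat.card F ^ (finrank F Y ^ 2) := by
  have : Finite (Y →ₗ[F] Y) := Module.finite_of_finite F
  refine ⟨Finite.of_injective f hf, (Nat.card_le_card_of_injective f hf).trans ?_⟩
  rw [Module.natCard_eq_pow_finrank (K := F), Module.finrank_linearMap, sq]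

/-- A non-central generator with a large eigenspace gives a short non-trivial element with a
large fixed space. -/
theorem exists_low [Module.Finite F V] {ρ : Representation F G V} {S : Set G}
    (hS : Subgroup.closure S = ⊤) {g : G} (hg : g ∈ S) (hc : ∃ x, x * g ≠ g * x) {c : F} {k : ℕ}
    (hk : finrank F (LinearMap.range (ρ g - c • LinearMap.id)) ≤ k) :
    ∃ g', g' ≠ 1 ∧ Len S 4 g' ∧ finrank F (LinearMap.range (ρ g' - LinearMap.id)) ≤ 2 * k := by
  obtain ⟨s, hs, hne⟩ : ∃ s ∈ S, s * g ≠ g * s := by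
    by_contra hcon
    push Not at hcon
    obtain ⟨x, hx⟩ := hc
    have : Subgroup.closure S ≤ Subgroup.centralizer {g} :=
      (Subgroup.closure_le _).2 fun s hs => Subgroup.mem_centralizer_singleton_iff.2 (hcon s hs)
    exact hx (Subgroup.mem_centralizer_singleton_iff.1 (this (hS ▸ Subgroup.mem_top x)))
  have h1 : Len S 1 g := Len.of_mem (Or.inl hg)
  have h2 : Len S 1 s := Len.of_mem (Or.inl hs)
  refine ⟨g * s * g⁻¹ * s⁻¹, fun h => hne ?_, ((h1.mul h2).mul h1.inv).mul h2.inv, ?_⟩
  · have : g * s = g * s * g⁻¹ * s⁻¹ * (s * g) := by group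
    rw [this, h, one_mul]
  · set W := LinearMap.range (ρ g - c • LinearMap.id) with hW
    have hle : LinearMap.range (ρ (g * s * g⁻¹ * s⁻¹) - LinearMap.id) ≤ W ⊔ W.map (ρ s) := by
      rintro _ ⟨v, rfl⟩
      refine Submodule.mem_sup.2 ⟨_, ⟨ρ s (ρ g⁻¹ (ρ s⁻¹ v)), rfl⟩, _,
        Submodule.neg_mem _ ⟨_, ⟨ρ g⁻¹ (ρ s⁻¹ v), rfl⟩, rfl⟩, ?_⟩
      simp
    have := Submodule.finrank_mono hle
    have := finrank_sup_le W (W.map (ρ s))
    have := Submodule.finrank_map_le (ρ s) W
    omega

theorem small_case [Finite F] [Module.Finite F V] {ρ : Representation F G V} {S : Set G}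
    {M Λ : ℕ} (h : Tools ρ S M Λ) (hinj : Function.Injective ρ) (hn : finrank F V ≤ M) (g : G) :
    Len S Λ g := by
  have : Finite (V →ₗ[F] V) := Module.finite_of_finite F
  have : Finite G := Finite.of_injective _ hinj
  have h1 : Nat.card G ≤ Nat.card F ^ (finrank F V * finrank F V) := by
    refine (Nat.card_le_card_of_injective (fun g => (ρ g : V →ₗ[F] V)) hinj).trans ?_
    rw [Module.natCard_eq_pow_finrank (K := F), Module.finrank_linearMap]
  have h2 := len_card (S := S) ⊤ (by simp) (g := g) (h.gen ▸ Subgroup.mem_top g)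
  rw [Subgroup.card_top] at h2
  refine h2.mono (h1.trans (le_trans (Nat.pow_le_pow_right Nat.card_pos ?_) h.card))
  rw [sq]; exact Nat.mul_le_mul hn hn

end Pool.Agent.P.MP_bed792_al
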