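import Pool.Agent.P.MP_bed792_al.Lin

set_option autoImplicit false

open Module

namespace Pool.Agent.P.MP_bed792_al

variable {G : Type*} [Group G] {F : Type*} [Field F] {V : Type*} [AddCommGroup V] [Module F V]

/-- `t` acts as `s ↦ s + φ s • u`. -/
def IsT (ρ : Representation F G V) (u : V) (φ : Dual F V) (t : G) : Prop :=
  ∀ s, ρ t s = s + φ s • u

/-- The transvections. -/
def Tv (ρ : Representation F G V) : Set G := {t | ∃ u φ, φ u = 0 ∧ IsT ρ u φ t}

/-- The group acts faithfully and contains all transvections. -/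
structure HasT (ρ : Representation F G V) : Prop where
  inj : Function.Injective ρ
  ex : ∀ (u : V) (φ : Dual F V), φ u = 0 → ∃ t, IsT ρ u φ t

variable {ρ : Representation F G V}

theorem IsT.conj {u : V} {φ : Dual F V} {t : G} (h : IsT ρ u φ t) (y : G) :
    IsT ρ (ρ y u) (φ ∘ₗ ρ y⁻¹) (y * t * y⁻¹) := fun s => by
  simp [h _]

theorem IsT.inv {u : V} {φ : Dual F V} {t : G} (h : IsT ρ u φ t) (hu : φ u = 0) :
    IsT ρ (-u) φ t⁻¹ := fun s => rho_inv_eq ρ (by simp [h _, hu])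

theorem IsT.mul {u u' : V} {φ : Dual F V} {t t' : G} (h : IsT ρ u φ t) (h' : IsT ρ u' φ t')
    (hu : φ u' = 0) : IsT ρ (u + u') φ (t * t') := fun s => by
  rw [rho_mul, h, h']; simp [hu]; abel

theorem IsT.mul' {u : V} {φ φ' : Dual F V} {t t' : G} (h : IsT ρ u φ t) (h' : IsT ρ u φ' t')
    (hu : φ u = 0) : IsT ρ u (φ + φ') (t * t') := fun s => by
  rw [rho_mul, h, h']; simp [hu, add_smul]; abel

theorem HasT.uniq (H : HasT ρ) {u : V} {φ : Dual F V} {t t' : G} (h : IsT ρ u φ t)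
    (h' : IsT ρ u φ t') : t = t' := H.inj (LinearMap.ext fun s => by rw [h, h'])

theorem HasT.move₀ (H : HasT ρ) {X : Submodule F V} {y y' : V} {φ : Dual F V}
    (hX : ∀ x ∈ X, φ x = 0) (h1 : φ y = 1) (h2 : φ y' = 1) :
    ∃ a, Len (Tv ρ) 1 a ∧ (∀ x ∈ X, ρ a x = x) ∧ ρ a y = y' := by
  have h3 : φ (y' - y) = 0 := by simp [h1, h2]
  obtain ⟨t, ht⟩ := H.ex _ φ h3
  exact ⟨t, Len.of_mem (Or.inl ⟨_, _, h3, ht⟩), fun x hx => by simp [ht x, hX x hx],
    by simp [ht y, h1]⟩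

theorem HasT.move (H : HasT ρ) {X : Submodule F V} {y y' : V} (hy : y ∉ X) (hy' : y' ∉ X)
    (hX : X ⊔ Submodule.span F {y} ≠ ⊤) :
    ∃ a, Len (Tv ρ) 2 a ∧ (∀ x ∈ X, ρ a x = x) ∧ ρ a y = y' := by
  by_cases h : y' ∈ X ⊔ Submodule.span F {y}
  · obtain ⟨y'', hy''⟩ : ∃ y'', y'' ∉ X ⊔ Submodule.span F {y} := by
      by_contra hc
      push Not at hc
      exact hX (eq_top_iff.2 fun z _ => hc z)
    have h2 : y'' ∉ X ⊔ Submodule.span F {y'} := fun hc => hy''
      ((sup_le le_sup_left ((Submodule.span_singleton_le_iff_mem _ _).2 h) :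
        X ⊔ Submodule.span F {y'} ≤ _) hc)
    obtain ⟨φ, h3, h4, h5⟩ := exists_fun₂ hy hy'' 1 1
    obtain ⟨ψ, h6, h7, h8⟩ := exists_fun₂ hy' h2 1 1
    obtain ⟨a, ha, ha1, ha2⟩ := H.move₀ h3 h4 h5
    obtain ⟨b, hb, hb1, hb2⟩ := H.move₀ h6 h8 h7
    exact ⟨b * a, hb.mul ha, fun x hx => by rw [rho_mul, ha1 x hx, hb1 x hx],
      by rw [rho_mul, ha2, hb2]⟩
  · obtain ⟨φ, h3, h4, h5⟩ := exists_fun₂ hy h 1 1
    obtain ⟨a, ha, ha1, ha2⟩ := H.move₀ h3 h4 h5
    exact ⟨a, ha.mono (by omega), ha1, ha2⟩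

theorem ne_top_of_lt {X : Submodule F V} (h : finrank F X < finrank F V) : X ≠ ⊤ := by
  rintro rfl
  simp at h

variable [Module.Finite F V]

theorem HasT.extend (H : HasT ρ) (f : V →ₗ[F] V) (W : Submodule F V)
    (hf : ∀ x ∈ W, f x = 0 → x = 0) (hW : finrank F W < finrank F V) :
    ∃ a : G, ∀ x ∈ W, ρ a x = f x := by
  refine sub_induction W (fun X => ∃ a : G, ∀ x ∈ X, ρ a x = f x) ⟨1, by simp⟩ ?_
  rintro X y hXW hyW hyX ⟨a, ha⟩
  have h1 : ρ a y ∉ X.map (ρ a) := by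
    rintro ⟨x, hx, hxy⟩
    exact hyX (rho_inj ρ a hxy ▸ hx)
  have h2 : f y ∉ X.map (ρ a) := by
    rintro ⟨x, hx, hxy⟩
    have := hf (x - y) (W.sub_mem (hXW hx) hyW) (by rw [map_sub, ← ha x hx, hxy, sub_self])
    exact hyX (sub_eq_zero.1 this ▸ hx)
  have h3 : X.map (ρ a) ⊔ Submodule.span F {ρ a y} ≤ W.map (ρ a) :=
    sup_le (Submodule.map_mono hXW) ((Submodule.span_singleton_le_iff_mem _ _).2 ⟨y, hyW, rfl⟩)
  obtain ⟨b, -, hb1, hb2⟩ := H.move h1 h2 (ne_top_of_lt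
    (((Submodule.finrank_mono h3).trans (Submodule.finrank_map_le _ _)).trans_lt hW))
  refine ⟨b * a, fun s hs => ?_⟩
  obtain ⟨x, hx, c, rfl⟩ := mem_sup_single.1 hs
  rw [rho_mul, map_add, map_add, map_smul, map_smul, hb1 _ ⟨x, hx, rfl⟩, hb2, ha x hx]
  simp

theorem HasT.pair (H : HasT ρ) (hn : 3 ≤ finrank F V) {w r u z : V} (hw : w ≠ 0)
    (hr : r ∉ Submodule.span F {w}) (hu : u ≠ 0) (hz : z ∉ Submodule.span F {u}) :
    ∃ a : G, ρ a w = u ∧ ρ a r = z := by
  obtain ⟨a, -, -, ha⟩ := H.move (X := ⊥) (y := w) (y' := u) (by simpa) (by simpa)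
    (ne_top_of_lt (by have := finrank_sup_single (⊥ : Submodule F V) w; simp at this ⊢; omega))
  have h1 : ρ a r ∉ Submodule.span F {u} := by
    intro h
    obtain ⟨c, hc⟩ := Submodule.mem_span_singleton.1 h
    rw [← ha, ← map_smul] at hc
    exact hr (Submodule.mem_span_singleton.2 ⟨c, rho_inj ρ a hc⟩)
  obtain ⟨b, -, hb1, hb2⟩ := H.move h1 hz (ne_top_of_lt (by
    have := finrank_sup_single (Submodule.span F {u}) (ρ a r)
    have := finrank_single_le (F := F) u
    omega))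
  exact ⟨b * a, by rw [rho_mul, ha, hb1 u (Submodule.mem_span_singleton_self u)],
    by rw [rho_mul, hb2]⟩

/-- Every element is a product of few transvections and an element of a small subgroup. -/
theorem HasT.decomp [Finite F] (H : HasT ρ) (j : ℕ) : ∀ X : Submodule F V,
    finrank F X + (j + 1) = finrank F V → ∃ K : Subgroup G, Finite K ∧ Nat.card K ≤ Nat.card F ∧
      ∀ g : G, (∀ x ∈ X, ρ g x = x) → ∃ a, Len (Tv ρ) (2 * (j + 1)) a ∧ a⁻¹ * g ∈ K := by
  have hnot : ∀ (X : Submodule F V) (y : V) (g : G), y ∉ X → (∀ x ∈ X, ρ g x = x) → ρ g y ∉ X :=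
    fun X y g hy hg h => hy (rho_inj ρ g (hg _ h) ▸ h)
  induction j with
  | zero =>
    intro X hX
    obtain ⟨y, -, hy⟩ := exists_notMem (U := ⊤) (Z := X) (by simp; omega)
    have htop : X ⊔ Submodule.span F {y} = ⊤ := by
      refine Submodule.eq_top_of_finrank_eq (le_antisymm (Submodule.finrank_le _) ?_)
      have : X < X ⊔ Submodule.span F {y} := lt_of_le_of_ne le_sup_left fun h =>
        hy (h ▸ Submodule.mem_sup_right (Submodule.mem_span_singleton_self y))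
      have := Submodule.finrank_lt_finrank_of_lt this
      omega
    let K : Subgroup G :=
      { carrier := {g | (∀ x ∈ X, ρ g x = x) ∧ ∃ c : F, ρ g y = c • y}
        mul_mem' := by
          rintro a b ⟨ha, c, hc⟩ ⟨hb, d, hd⟩
          exact ⟨fun x hx => by rw [rho_mul, hb x hx, ha x hx], d * c,
            by rw [rho_mul, hd, map_smul, hc, smul_smul]⟩
        one_mem' := ⟨by simp, 1, by simp⟩
        inv_mem' := by
          rintro a ⟨ha, c, hc⟩
          have hc0 : c ≠ 0 := by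
            rintro rfl
            exact hnot X y a hy ha (by simp [hc])
          exact ⟨fun x hx => rho_inv_eq ρ (ha x hx), c⁻¹,
            rho_inv_eq ρ (by rw [map_smul, hc, smul_smul, inv_mul_cancel₀ hc0, one_smul])⟩ }
    have hinj : Function.Injective fun g : K => Classical.choose g.2.2 := by
      intro g g' h
      refine Subtype.ext (H.inj (LinearMap.ext fun s => ?_))
      obtain ⟨x, hx, c, rfl⟩ := mem_sup_single.1 (htop ▸ Submodule.mem_top : s ∈ _)
      have e1 := Classical.choose_spec g.2.2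
      have e2 := Classical.choose_spec g'.2.2
      have e3 : ρ g y = ρ g' y := e1.trans ((congrArg (· • y) h).trans e2.symm)
      rw [map_add, map_add, map_smul, map_smul, g.2.1 x hx, g'.2.1 x hx, e3]
    refine ⟨K, Finite.of_injective _ hinj, Nat.card_le_card_of_injective _ hinj, fun g hg => ?_⟩
    obtain ⟨x, hx, c, hc⟩ := mem_sup_single.1 (htop ▸ Submodule.mem_top : ρ g y ∈ _)
    obtain ⟨φ, hφ, hφ1⟩ := exists_fun (hnot X y g hy hg)
    obtain ⟨a, ha, ha1, ha2⟩ := H.move₀ (y := c • y) hφ (by rw [← hφ1, hc]; simp [hφ x hx]) hφ1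
    exact ⟨a, ha.mono (by omega), fun x hx => by rw [rho_mul, hg x hx, rho_inv_eq ρ (ha1 x hx)],
      c, by rw [rho_mul, rho_inv_eq ρ ha2]⟩
  | succ j ih =>
    intro X hX
    obtain ⟨y, -, hy⟩ := exists_notMem (U := ⊤) (Z := X) (by simp; omega)
    have h1 : finrank F (X ⊔ Submodule.span F {y} : Submodule F V) = finrank F X + 1 := by
      refine le_antisymm (finrank_sup_single _ _) ?_
      have : X < X ⊔ Submodule.span F {y} := lt_of_le_of_ne le_sup_left fun h =>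
        hy (h ▸ Submodule.mem_sup_right (Submodule.mem_span_singleton_self y))
      exact Submodule.finrank_lt_finrank_of_lt this
    obtain ⟨K, hK, hK1, hK2⟩ := ih (X ⊔ Submodule.span F {y}) (by omega)
    refine ⟨K, hK, hK1, fun g hg => ?_⟩
    obtain ⟨a, ha, ha1, ha2⟩ := H.move hy (hnot X y g hy hg) (ne_top_of_lt (by omega))
    obtain ⟨b, hb, hb1⟩ := hK2 (a⁻¹ * g) (fun s hs => by
      obtain ⟨x, hx, c, rfl⟩ := mem_sup_single.1 hs
      rw [rho_mul, map_add, map_add, map_smul, map_smul, hg x hx, rho_inv_eq ρ (ha1 x hx),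
        rho_inv_eq ρ ha2])
    exact ⟨a * b, (ha.mul hb).mono (by omega), by simpa [mul_assoc] using hb1⟩

theorem exists_disp (U Z W : Submodule F V) (h : finrank F Z + finrank F W < finrank F U) :
    ∃ D : V →ₗ[F] V, (∀ v, D v ∈ U) ∧ ∀ w ∈ W, D w ∈ Z → w = 0 := by
  refine sub_induction W (fun X => ∃ D : V →ₗ[F] V, (∀ v, D v ∈ U) ∧ ∀ w ∈ X, D w ∈ Z → w = 0)
    ⟨0, by simp, by simp⟩ ?_
  rintro X y hXW - hyX ⟨D, hD, hD'⟩
  obtain ⟨y', hy', hy''⟩ := exists_notMem (U := U) (Z := Z ⊔ X.map D) (by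
    have := finrank_sup_le Z (X.map D)
    have := Submodule.finrank_map_le D X
    have := Submodule.finrank_mono hXW
    omega)
  obtain ⟨φ, hφ, hφ1⟩ := exists_fun hyX
  refine ⟨D + φ.smulRight (y' - D y), fun v => U.add_mem (hD v) (U.smul_mem _
    (U.sub_mem hy' (hD y))), fun s hs hz => ?_⟩
  obtain ⟨x, hx, c, rfl⟩ := mem_sup_single.1 hs
  have h1 : (D + φ.smulRight (y' - D y)) (x + c • y) = D x + c • y' := by
    simp [hφ x hx, hφ1, smul_sub]
  rw [h1] at hz
  by_cases hc : c = 0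
  · subst hc
    simpa using hD' x hx (by simpa using hz)
  · exfalso
    apply hy''
    have : y' = c⁻¹ • (D x + c • y') + -(c⁻¹ • D x) := by
      simp [smul_smul, inv_mul_cancel₀ hc]
    rw [this]
    exact Submodule.add_mem_sup (Z.smul_mem _ hz)
      (Submodule.neg_mem _ (Submodule.smul_mem _ _ ⟨x, hx, rfl⟩))

end Pool.Agent.P.MP_bed792_al
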