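import Pool.Agent.P.MP_bed792_al.Ball

set_option autoImplicit false

open Module Pointwise

namespace Pool.Agent.P.MP_bed792_al

variable {G : Type*} [Group G] {R : Type*} [Field R]

/-- `f` lies in a left-invariant space of functions spanned by at most `L` functions. -/
def Rep (L : ℕ) (f : G → R) : Prop :=
  ∃ T : Finset (G → R), T.card ≤ L ∧ f ∈ Submodule.span R (T : Set (G → R)) ∧
    ∀ s : G, ∀ φ ∈ T, (fun h => φ (s * h)) ∈ Submodule.span R (T : Set (G → R))

namespace Rep

variable {L L' : ℕ} {f f' : G → R}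

theorem mono (h : Rep L f) (hL : L ≤ L') : Rep L' f := by
  obtain ⟨T, h1, h2⟩ := h
  exact ⟨T, h1.trans hL, h2⟩

theorem const (c : R) : Rep 1 (fun _ : G => c) := by
  refine ⟨{fun _ => 1}, by simp, ?_, ?_⟩
  · rw [Finset.coe_singleton, Submodule.mem_span_singleton]
    exact ⟨c, by ext; simp⟩
  · intro s φ hφ
    rw [Finset.mem_singleton.1 hφ]
    exact Submodule.subset_span (by simp)

theorem sub (h : Rep L f) (h' : Rep L' f') : Rep (L + L') (fun g => f g - f' g) := by
  classical
  obtain ⟨T, h1, h2, h3⟩ := h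
  obtain ⟨T', h1', h2', h3'⟩ := h'
  have e1 : Submodule.span R (T : Set (G → R)) ≤ Submodule.span R ((T ∪ T' : Finset _) : Set _) :=
    Submodule.span_mono (by simp)
  have e2 : Submodule.span R (T' : Set (G → R)) ≤ Submodule.span R ((T ∪ T' : Finset _) : Set _) :=
    Submodule.span_mono (by simp)
  refine ⟨T ∪ T', (Finset.card_union_le _ _).trans (by omega),
    Submodule.sub_mem _ (e1 h2) (e2 h2'), fun s φ hφ => ?_⟩
  rcases Finset.mem_union.1 hφ with hφ | hφ
  exacts [e1 (h3 s φ hφ), e2 (h3' s φ hφ)]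

theorem mul (h : Rep L f) (h' : Rep L' f') : Rep (L * L') (fun g => f g * f' g) := by
  classical
  obtain ⟨T, h1, h2, h3⟩ := h
  obtain ⟨T', h1', h2', h3'⟩ := h'
  have e : Submodule.span R ((T * T' : Finset (G → R)) : Set (G → R)) =
      Submodule.span R (T : Set (G → R)) * Submodule.span R (T' : Set (G → R)) := by
    rw [Submodule.span_mul_span, Finset.coe_mul]
  refine ⟨T * T', Finset.card_mul_le.trans (Nat.mul_le_mul h1 h1'), ?_, fun s φ hφ => ?_⟩
  · rw [e]; exact Submodule.mul_mem_mul h2 h2'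
  · obtain ⟨a, ha, b, hb, rfl⟩ := Finset.mem_mul.1 hφ
    rw [e]; exact Submodule.mul_mem_mul (h3 s a ha) (h3' s b hb)

theorem pow (h : Rep L f) (m : ℕ) : Rep (L ^ m) (fun g => f g ^ m) := by
  induction m with
  | zero => simpa using const (G := G) (1 : R)
  | succ m ih => simpa [pow_succ] using ih.mul h

theorem prod {ι : Type*} (u : Finset ι) (F : ι → G → R) (h : ∀ i ∈ u, Rep L (F i)) :
    Rep (L ^ u.card) (fun g => ∏ i ∈ u, F i g) := by
  classical
  induction u using Finset.induction_on with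
  | empty => simpa using const (G := G) (1 : R)
  | insert a u ha ih =>
    simp only [Finset.prod_insert ha, Finset.card_insert_of_notMem ha, pow_succ']
    exact (h a (by simp)).mul (ih fun i hi => h i (by simp [hi]))

theorem of_linear {D : Type*} [AddCommGroup D] [Module R D] [Module.Finite R D]
    (Φ : D →ₗ[R] (G → R)) (hΦ : ∀ s d, ∃ d', (fun h => Φ d (s * h)) = Φ d') (d : D) :
    Rep (finrank R D) (Φ d) := by
  classical
  let b := Module.finBasis R D
  have e : Submodule.span R ((Finset.univ.image fun i => Φ (b i) : Finset (G → R)) : Set (G → R)) =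
      LinearMap.range Φ := by
    rw [LinearMap.range_eq_map, ← b.span_eq, Submodule.map_span, ← Set.range_comp]
    simp [Function.comp_def]
  refine ⟨Finset.univ.image fun i => Φ (b i), Finset.card_image_le.trans (by simp), ?_, ?_⟩
  · rw [e]; exact ⟨d, rfl⟩
  · intro s φ hφ
    obtain ⟨i, -, rfl⟩ := Finset.mem_image.1 hφ
    obtain ⟨d', hd'⟩ := hΦ s (b i)
    rw [e, hd']; exact ⟨d', rfl⟩

/-- Escape: a function in an invariant space of dimension at most `L` that is not zero is
nonzero at a word of length at most `L`. -/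
theorem escape {S : Set G} (hS : Subgroup.closure S = ⊤) (h : Rep L f) {a : G} (ha : f a ≠ 0) :
    ∃ g, Len S L g ∧ f g ≠ 0 := by
  obtain ⟨T, h1, h2, h3⟩ := h
  set W := Submodule.span R (T : Set (G → R)) with hW
  have hinv : ∀ s : G, ∀ φ ∈ W, (fun h => φ (s * h)) ∈ W := by
    intro s φ hφ
    induction hφ using Submodule.span_induction with
    | mem x hx => exact h3 s x hx
    | zero => exact W.zero_mem
    | add x y _ _ hx hy => exact W.add_mem hx hy
    | smul c x _ hx => exact W.smul_mem c hx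
  let Z : ℕ → Submodule R (G → R) := fun j =>
    { carrier := {φ | φ ∈ W ∧ ∀ g, Len S j g → φ g = 0}
      add_mem' := fun hx hy => ⟨W.add_mem hx.1 hy.1, fun g hg => by simp [hx.2 g hg, hy.2 g hg]⟩
      zero_mem' := ⟨W.zero_mem, fun _ _ => rfl⟩
      smul_mem' := fun c x hx => ⟨W.smul_mem c hx.1, fun g hg => by simp [hx.2 g hg]⟩ }
  have hZW : ∀ j, Z j ≤ W := fun j φ hφ => hφ.1
  have hfin : ∀ j, Module.Finite R (Z j) := fun j => Submodule.finiteDimensional_of_le (hZW j)
  have hanti : ∀ j, Z (j + 1) ≤ Z j := fun j φ hφ => ⟨hφ.1, fun g hg => hφ.2 g (hg.mono (by omega))⟩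
  have hstab : ∀ j, Z j ≤ Z (j + 1) → Z j = ⊥ := by
    intro j hj
    have key : ∀ i g, Len S i g → ∀ φ ∈ Z j, φ g = 0 := by
      intro i
      induction i with
      | zero => intro g hg φ hφ; exact hφ.2 g (hg.mono (Nat.zero_le _))
      | succ i ih =>
        intro g hg φ hφ
        rcases Len.succ_iff.1 hg with hg | ⟨s, k, hs, hk, rfl⟩
        · exact ih g hg φ hφ
        · exact ih k hk (fun h => φ (s * h)) ⟨hinv s φ hφ.1, fun g hg =>
            (hj hφ).2 _ (Len.succ_iff.2 (Or.inr ⟨s, g, hs, hg, rfl⟩))⟩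
    rw [eq_bot_iff]
    intro φ hφ
    rw [Submodule.mem_bot]
    funext g
    obtain ⟨i, hi⟩ := exists_len (S := S) (g := g) (hS ▸ Subgroup.mem_top g)
    exact key i g hi φ hφ
  have key : ∀ j, Z j = ⊥ ∨ finrank R (Z j) + j ≤ finrank R W := by
    intro j
    induction j with
    | zero => exact Or.inr (Submodule.finrank_mono (hZW 0))
    | succ j ih =>
      by_cases hj : Z j ≤ Z (j + 1)
      · exact Or.inl (eq_bot_iff.2 ((hanti j).trans (hstab j hj).le))
      · rcases ih with ih | ih
        · exact absurd (ih ▸ bot_le) hj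
        · have := hfin j
          have := Submodule.finrank_lt_finrank_of_lt (lt_of_le_not_ge (hanti j) hj)
          omega
  have hWL : finrank R W ≤ L := (finrank_span_finset_le_card T).trans h1
  have hbot : Z L = ⊥ := by
    rcases key L with h | h
    · exact h
    · have := hfin L
      exact Submodule.finrank_eq_zero.1 (by omega)
  by_contra hcon
  push Not at hcon
  have : f ∈ Z L := ⟨h2, hcon⟩
  rw [hbot, Submodule.mem_bot] at this
  exact ha (by simp [this])

end Rep

theorem one_add_pow_le (N m : ℕ) (hm : 1 ≤ m) : 1 + (N + 1) ^ m ≤ (N + 2) ^ m := by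
  have := Nat.pow_lt_pow_left (show N + 1 < N + 2 by omega) (show m ≠ 0 by omega)
  omega

/-- Short words copy finitely many coefficient functions over the prime field. -/
theorem mimic_zmod {p : ℕ} [Fact p.Prime] {S : Set G} (hS : Subgroup.closure S = ⊤) {ι : Type*}
    (u : Finset ι) (F : ι → G → ZMod p) {N : ℕ} (h : ∀ i ∈ u, Rep N (F i)) (a : G) :
    ∃ g, Len S ((N + 2) ^ (p * u.card)) g ∧ ∀ i ∈ u, F i g = F i a := by
  have hp : 2 ≤ p := (Fact.out : p.Prime).two_le
  have h1 : Rep (((N + 2) ^ (p - 1)) ^ u.card)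
      (fun g => ∏ i ∈ u, (1 - (F i g - F i a) ^ (p - 1))) :=
    Rep.prod u _ fun i hi => ((Rep.const 1).sub (((h i hi).sub (Rep.const _)).pow _)).mono
      (one_add_pow_le _ _ (by omega))
  obtain ⟨g, hg, hne⟩ := h1.escape hS (a := a) (by
    simp [zero_pow (show p - 1 ≠ 0 by omega)])
  refine ⟨g, hg.mono ?_, fun i hi => ?_⟩
  · rw [← pow_mul]
    exact Nat.pow_le_pow_right (by omega) (Nat.mul_le_mul_right _ (by omega))
  · by_contra hc
    exact hne (Finset.prod_eq_zero hi (by rw [ZMod.pow_card_sub_one_eq_one (sub_ne_zero.2 hc)]; simp))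

end Pool.Agent.P.MP_bed792_al
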