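import Pool.Agent.P.MP_bed792_al.SLA

set_option autoImplicit false

open Module

namespace Pool.Agent.P.MP_bed792_al

variable {G : Type*} [Group G] {F : Type*} [Field F] {V : Type*} [AddCommGroup V] [Module F V]
  [Module.Finite F V] {ρ : Representation F G V} {S : Set G} {M Λ : ℕ}

theorem dual_ext {x y : V} (h : ∀ φ : Dual F V, φ x = φ y) : x = y := by
  rw [← sub_eq_zero, ← Module.forall_dual_apply_eq_zero_iff F]
  intro φ
  rw [map_sub, h, sub_self]

/-- From an element with a large fixed space to a transvection. -/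
theorem HasT.reduce (H : HasT ρ) (T : Tools ρ S M Λ) {g : G} {l m : ℕ} (hg1 : g ≠ 1)
    (hg : Len S l g) (hm : finrank F (LinearMap.range (ρ g - LinearMap.id)) ≤ m)
    (hn : 3 * m + 1 < finrank F V) (hM : m + 1 ≤ M) :
    ∃ u ψ t, u ≠ 0 ∧ ψ ≠ 0 ∧ ψ u = 0 ∧ IsT ρ u ψ t ∧ Len S (4 * Λ + 4 * l) t := by
  set A : V →ₗ[F] V := ρ g - LinearMap.id with hA
  have hAs : ∀ s, ρ g s = s + A s := fun s => by simp [hA]
  set W := LinearMap.range A with hW
  obtain ⟨r, hr⟩ : ∃ r, A r ≠ 0 := by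
    by_contra hc
    push Not at hc
    exact hg1 (H.inj (LinearMap.ext fun s => by simp [hAs, hc]))
  obtain ⟨β, -, hβ⟩ := exists_fun (X := (⊥ : Submodule F V)) (y := A r) (by simpa using hr)
  have hker := LinearMap.finrank_range_add_finrank_ker A
  obtain ⟨D, hD, hD'⟩ := exists_disp (LinearMap.ker A) (W ⊔ Submodule.span F {r}) W (by
    have := finrank_sup_single W r
    rw [← hW] at hker
    omega)
  have hdisj : Disjoint (W.map D) W := by
    rw [Submodule.disjoint_def]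
    rintro _ ⟨w, hw, rfl⟩ h
    rw [hD' w hw (Submodule.mem_sup_left h), map_zero]
  obtain ⟨C, hC, hcompl⟩ := hdisj.exists_isCompl
  let π : V →ₗ[F] V := W.subtype ∘ₗ Submodule.projectionOnto W C hcompl.symm
  have hπ1 : ∀ w ∈ W, π w = w := fun w hw => by
    simpa [π] using congrArg Subtype.val
      (Submodule.projectionOnto_apply_left hcompl.symm ⟨w, hw⟩)
  have hπ2 : ∀ w ∈ W, π (D w) = 0 := fun w hw => by
    simpa [π] using congrArg Subtype.val
      (Submodule.projectionOnto_apply_right hcompl.symm ⟨D w, hC ⟨w, hw, rfl⟩⟩)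
  obtain ⟨E, hE⟩ := (D ∘ₗ W.subtype).exists_leftInverse_of_injective (by
    rw [LinearMap.ker_eq_bot']
    intro w hw
    exact Subtype.ext (hD' w w.2 (by rw [show D w = 0 from hw]; exact Submodule.zero_mem _)))
  have hE' : ∀ w ∈ W, (E (D w) : V) = w := fun w hw =>
    congrArg Subtype.val (LinearMap.congr_fun hE ⟨w, hw⟩)
  let f : V →ₗ[F] V := (β ∘ₗ π).smulRight r + D ∘ₗ π + W.subtype ∘ₗ E ∘ₗ (LinearMap.id - π)
  have hf1 : ∀ w ∈ W, f w = β w • r + D w := fun w hw => by simp [f, hπ1 w hw]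
  have hf2 : ∀ w ∈ W, f (D w) = w := fun w hw => by simp [f, hπ2 w hw, hE' w hw]
  obtain ⟨a, ha⟩ := H.extend f (W ⊔ W.map D) (by
    intro x hx h0
    obtain ⟨w, hw, _, ⟨w', hw', rfl⟩, rfl⟩ := Submodule.mem_sup.1 hx
    rw [map_add, hf1 w hw, hf2 w' hw'] at h0
    have h1 : w = 0 := hD' w hw (mem_sup_single.2 ⟨-w', W.neg_mem hw', -β w, by
      rw [← sub_eq_zero, ← h0]; module⟩)
    subst h1
    have h2 : w' = 0 := by simpa using h0
    simp [h2]) (by
    have := finrank_sup_le W (W.map D)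
    have := Submodule.finrank_map_le D W
    omega)
  obtain ⟨h, hh, hcopy, -⟩ := T.mimic₂ (LinearMap.id : Dual F V →ₗ[F] Dual F V)
    (LinearMap.range A.dualMap) W
    (by rw [LinearMap.finrank_range_dualMap_eq_finrank_range, ← hW]; omega)
    (by omega) 0 0 a
  have k1 : ∀ w ∈ W, A (ρ h⁻¹ w) = 0 := fun w hw => dual_ext fun φ => by
    have h1 := (hcopy _ ⟨φ, rfl⟩ w hw).2
    have h2 : ρ a⁻¹ w = D w :=
      rho_inv_eq ρ (by rw [ha _ (Submodule.mem_sup_right ⟨w, hw, rfl⟩), hf2 w hw])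
    rw [h2] at h1
    simpa [LinearMap.mem_ker.1 (hD w)] using h1
  have k2 : ∀ w ∈ W, A (ρ h w) = β w • A r := fun w hw => dual_ext fun φ => by
    have h1 := (hcopy _ ⟨φ, rfl⟩ w hw).1
    rw [ha _ (Submodule.mem_sup_left hw), hf1 w hw] at h1
    simpa [LinearMap.mem_ker.1 (hD w)] using h1
  set g' := h * g * h⁻¹ with hg'
  have k3 : ∀ s, ρ g' s = s + ρ h (A (ρ h⁻¹ s)) := fun s => by
    rw [hg', rho_mul, rho_mul, hAs, map_add, rho_apply_inv]
  have k4 : ∀ w ∈ W, ρ g' w = w := fun w hw => by rw [k3, k1 w hw]; simp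
  refine ⟨A r, β ∘ₗ A ∘ₗ ρ h⁻¹ ∘ₗ ρ g⁻¹ ∘ₗ ρ g'⁻¹, g * g' * g⁻¹ * g'⁻¹, hr, fun h0 => ?_, ?_,
    fun s => ?_, ?_⟩
  · simpa [hβ] using LinearMap.congr_fun h0 (ρ g' (ρ g (ρ h r)))
  · have h1 : ρ g'⁻¹ (A r) = A r := rho_inv_eq ρ (k4 _ ⟨r, rfl⟩)
    have h2 : ρ g⁻¹ (A r) ∈ W := by
      have := hAs (ρ g⁻¹ (A r))
      rw [rho_apply_inv] at this
      rw [eq_sub_of_add_eq this.symm]
      exact W.sub_mem ⟨r, rfl⟩ ⟨_, rfl⟩
    simp only [LinearMap.comp_apply, h1, k1 _ h2, map_zero]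
  · obtain ⟨x, rfl⟩ : ∃ x, s = ρ g' (ρ g x) := ⟨ρ g⁻¹ (ρ g'⁻¹ s), by simp⟩
    simp only [rho_mul, LinearMap.comp_apply, rho_inv_apply]
    rw [hAs (ρ g' x), hAs x, map_add (ρ g'), k4 (A x) ⟨x, rfl⟩]
    conv_lhs => rw [k3 x]
    rw [map_add, k2 _ ⟨_, rfl⟩, ← k3 x, add_assoc]
  · exact (((hg.mul (hh.conj hg)).mul hg.inv).mul (hh.conj hg).inv).mono (by omega)

/-- All transvections with a given hyperplane. -/
theorem HasT.stage₁ (H : HasT ρ) (T : Tools ρ S M Λ) (hn : 3 ≤ finrank F V) (hM : 2 ≤ M)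
    {w : V} {α : Dual F V} {t : G} {l : ℕ} (hw : w ≠ 0) (hα : α ≠ 0) (h0 : α w = 0)
    (ht : IsT ρ w α t) (hl : Len S l t) {d : V} (hd : α d = 0) {t' : G} (ht' : IsT ρ d α t') :
    Len S (Λ * (4 * Λ + 4 * l)) t' := by
  obtain ⟨r, hr⟩ : ∃ r, α r = 1 := by
    obtain ⟨r, hr⟩ := DFunLike.ne_iff.1 hα
    exact ⟨(α r)⁻¹ • r, by rw [map_smul, smul_eq_mul, inv_mul_cancel₀ hr]⟩
  have hrw : r ∉ Submodule.span F {w} := fun h => by
    obtain ⟨c, rfl⟩ := Submodule.mem_span_singleton.1 h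
    simp [h0] at hr
  obtain ⟨γ, hγ, hγw⟩ := exists_notMem (U := LinearMap.ker α) (Z := Submodule.span F {w}) (by
    have := LinearMap.finrank_range_add_finrank_ker α
    have := finrank_single_le (F := F) w
    have := Submodule.finrank_le (LinearMap.range α)
    rw [finrank_self] at this
    omega)
  obtain ⟨-, t'', h1, h2⟩ := T.add (fun L z => α z = 0 ∧ ∃ t', IsT ρ z α t' ∧ Len S L t')
    (fun a b z hab h => ⟨h.1, h.2.imp fun _ h => ⟨h.1, h.2.mono hab⟩⟩)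
    ⟨by simp, 1, fun s => by simp, Len.one _ _⟩
    (fun a b z y ⟨h1, t₁, h2, h3⟩ ⟨h4, t₂, h5, h6⟩ =>
      ⟨by simp [h1, h4], t₁ * t₂, h2.mul h5 h4, h3.mul h6⟩)
    {z | α z = 0 ∧ ∃ t', IsT ρ z α t' ∧ Len S (4 * Λ + 4 * l) t'} _ (fun z hz => hz) d (by
      intro θ hθ
      obtain ⟨u, hu, huw, huθ⟩ : ∃ u, α u = 0 ∧ u ∉ Submodule.span F {w} ∧ θ u ≠ 0 := by
        by_cases h1 : d ∈ Submodule.span F {w}
        · by_cases h2 : θ γ = 0
          · exact ⟨γ + d, by simp [hd, LinearMap.mem_ker.1 hγ],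
              fun h => hγw (by simpa using Submodule.sub_mem _ h h1), by simpa [h2] using hθ⟩
          · exact ⟨γ, hγ, hγw, h2⟩
        · exact ⟨d, hd, h1, hθ⟩
      have hu0 : u ≠ 0 := fun h => huw (h ▸ Submodule.zero_mem _)
      obtain ⟨a, ha1, ha2⟩ := H.pair hn hw hrw hu0 (z := w) (fun h => by
        obtain ⟨c, rfl⟩ := Submodule.mem_span_singleton.1 h
        have hc : c ≠ 0 := by rintro rfl; simp at hw
        exact huw (Submodule.mem_span_singleton.2 ⟨c⁻¹, by simp [smul_smul, hc]⟩))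
      obtain ⟨h, hh, hcopy, hθ'⟩ := T.mimic₂ (LinearMap.id : Dual F V →ₗ[F] Dual F V)
        (Submodule.span F {α}) (Submodule.span F {w})
        (by have := finrank_single_le (F := F) α; omega)
        (by have := finrank_single_le (F := F) w; omega) θ w a
      obtain ⟨k1, k2⟩ := hcopy α (Submodule.mem_span_singleton_self _) w
        (Submodule.mem_span_singleton_self _)
      rw [ha1] at k1 hθ'
      rw [rho_inv_eq ρ ha2] at k2
      simp only [LinearMap.id_apply, hu, hr] at k1 k2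
      refine ⟨ρ h w, ⟨k1, (h * t * h⁻¹) * t * (h * t * h⁻¹)⁻¹ * t⁻¹, ?_,
        (((hh.conj hl).conj hl).mul hl.inv).mono (by omega)⟩, by rwa [hθ']⟩
      have k3 := ht.conj h
      have k4 := ht.conj (h * t * h⁻¹)
      have k5 : α ∘ₗ ρ (h * t * h⁻¹)⁻¹ = α := LinearMap.ext fun s => by
        rw [LinearMap.comp_apply, k3.inv (by simp [h0]) s]; simp [k1]
      rw [k5, k3 w] at k4
      have := k4.mul (ht.inv h0) (by simp [h0])
      simpa [k2] using this)
  rwa [H.uniq ht' h1]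

/-- All transvections. -/
theorem HasT.stage₂ (H : HasT ρ) (T : Tools ρ S M Λ) (hn : 3 ≤ finrank F V) (hM : 3 ≤ M)
    {w : V} {α : Dual F V} {l : ℕ} (hw : w ≠ 0) (hα : α ≠ 0) (h0 : α w = 0)
    (hl : ∀ d t', α d = 0 → IsT ρ d α t' → Len S l t') {t : G} (ht : t ∈ Tv ρ) :
    Len S (Λ * (2 * Λ + l)) t := by
  obtain ⟨d, β, hβ, ht⟩ := ht
  by_cases hd : d = 0
  · rw [H.uniq ht (t' := 1) (fun s => by simp [hd])]
    exact Len.one _ _
  obtain ⟨r, hr⟩ := DFunLike.ne_iff.1 hα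
  have hrw : r ∉ Submodule.span F {w} := fun h => by
    obtain ⟨c, rfl⟩ := Submodule.mem_span_singleton.1 h
    simp [h0] at hr
  obtain ⟨-, t', h1, h2⟩ := span_short (K := F)
    (fun L (γ : Dual F V) => γ d = 0 ∧ ∃ t', IsT ρ d γ t' ∧ Len S L t')
    (fun a b z hab h => ⟨h.1, h.2.imp fun _ h => ⟨h.1, h.2.mono hab⟩⟩)
    ⟨by simp, 1, fun s => by simp, Len.one _ _⟩
    (fun a b z y ⟨h1, t₁, h2, h3⟩ ⟨h4, t₂, h5, h6⟩ =>
      ⟨by simp [h1, h4], t₁ * t₂, h2.mul' h5 h1, h3.mul h6⟩)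
    {γ | ∃ h, Len S Λ h ∧ γ = α ∘ₗ ρ h⁻¹ ∧ γ d = 0} (2 * Λ + l) (by
      rintro c _ ⟨h, hh, rfl, h1⟩
      have h2 : α (c • ρ h⁻¹ d) = 0 := by simpa using Or.inr h1
      obtain ⟨t₁, ht₁⟩ := H.ex _ α h2
      refine ⟨by simp [h1], h * t₁ * h⁻¹, fun s => ?_, hh.conj (hl _ _ h2 ht₁)⟩
      rw [ht₁.conj h s]
      simp [smul_smul, mul_comm]) (z := β) (by
      by_contra hcon
      obtain ⟨f, hf, hle⟩ := Submodule.exists_le_ker_of_notMem hcon
      obtain ⟨z, rfl⟩ := (Module.evalEquiv F V).surjective f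
      have hz : z ∉ Submodule.span F {d} := fun h => by
        obtain ⟨c, rfl⟩ := Submodule.mem_span_singleton.1 h
        simp [hβ] at hf
      obtain ⟨a, ha1, ha2⟩ := H.pair hn hw hrw hd hz
      obtain ⟨h, hh, hcopy, -⟩ := T.mimic₂ (LinearMap.id : Dual F V →ₗ[F] Dual F V)
        (Submodule.span F {α}) (Submodule.span F {d} ⊔ Submodule.span F {z})
        (by have := finrank_single_le (F := F) α; omega)
        (by have := finrank_single_le (F := F) d
            have := finrank_sup_single (Submodule.span F {d}) z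
            omega) 0 0 a
      have k1 := (hcopy α (Submodule.mem_span_singleton_self _) d
        (Submodule.mem_sup_left (Submodule.mem_span_singleton_self _))).2
      have k2 := (hcopy α (Submodule.mem_span_singleton_self _) z
        (Submodule.mem_sup_right (Submodule.mem_span_singleton_self _))).2
      rw [rho_inv_eq ρ ha1] at k1
      rw [rho_inv_eq ρ ha2] at k2
      have := LinearMap.mem_ker.1 (hle (Submodule.subset_span ⟨h, hh, rfl, k1.trans h0⟩))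
      exact hr (k2.symm.trans (by simpa using this)))
  rw [Subspace.dual_finrank_eq] at h2
  rw [H.uniq ht h1]
  exact h2.mono (Nat.mul_le_mul_right _ T.dim)

/-- The diameter bound for groups containing all transvections. -/
theorem HasT.main [Finite F] (H : HasT ρ) (T : Tools ρ S M Λ) {g : G} (hg : g ∈ S)
    (hc : ∃ x, x * g ≠ g * x) {c : F} {k : ℕ}
    (hk : finrank F (LinearMap.range (ρ g - c • LinearMap.id)) ≤ k) (hM : 6 * k + 3 ≤ M) (x : G) :
    Len S (600 * Λ ^ 5) x := by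
  have hΛ := T.one_le
  have e1 : Λ ≤ Λ ^ 2 := by nlinarith
  have e2 : Λ ^ 2 ≤ Λ ^ 3 := Nat.pow_le_pow_right hΛ (by omega)
  have e3 : Λ ^ 3 ≤ Λ ^ 4 := Nat.pow_le_pow_right hΛ (by omega)
  have e4 : Λ ^ 4 ≤ Λ ^ 5 := Nat.pow_le_pow_right hΛ (by omega)
  by_cases hn : finrank F V ≤ M
  · exact (small_case T H.inj hn x).mono (by omega)
  obtain ⟨g', h1, h2, h3⟩ := exists_low T.gen hg hc hk
  obtain ⟨u, ψ, t, hu, hψ, h0, ht, hl⟩ := H.reduce T h1 h2 h3 (by omega) (by omega)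
  have hall : ∀ t ∈ Tv ρ, Len S (86 * Λ ^ 3) t := fun t' ht' =>
    (H.stage₂ T (by omega) (by omega) hu hψ h0 (fun d t' hd ht' =>
      H.stage₁ T (by omega) (by omega) hu hψ h0 ht hl hd ht') ht').mono (by nlinarith)
  obtain ⟨K, hK, hK1, hK2⟩ := H.decomp (finrank F V - 1) ⊥ (by simp; omega)
  have hq : Nat.card K ≤ Λ := hK1.trans (le_trans (Nat.le_self_pow (pow_ne_zero 2 (by omega)) _) T.card)
  have := len_schreier T.gen K (L := 172 * Λ ^ 4) (fun y => by
    obtain ⟨a, ha, ha'⟩ := hK2 y (by simp)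
    refine ⟨a, (Len.comp hall ha).mono ?_, ha'⟩
    have := T.dim
    have : 2 * (finrank F V - 1 + 1) ≤ 2 * Λ := by omega
    nlinarith [Nat.mul_le_mul_left (86 * Λ ^ 3) this]) x
  refine this.mono ?_
  nlinarith [Nat.mul_le_mul_left (2 * (172 * Λ ^ 4) + 1) hq]

end Pool.Agent.P.MP_bed792_al
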