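import Pool.Agent.P.MP_bed792_al.Rep

set_option autoImplicit false

open Module

namespace Pool.Agent.P.MP_bed792_al

variable {G : Type*} [Group G] {F : Type*} [Field F] {V : Type*} [AddCommGroup V] [Module F V]

/-- The three quantitative tools used in the diameter bounds. -/
structure Tools (ρ : Representation F G V) (S : Set G) (M Λ : ℕ) : Prop where
  gen : Subgroup.closure S = ⊤
  mimic : ∀ (Φ : Finset (V →+ F)) (t : Finset V), Φ.card ≤ M → t.card ≤ M →
    ∀ (κ : V →+ V →+ F) (v₀ : V) (a : G), ∃ h, Len S Λ h ∧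
      (∀ χ ∈ Φ, ∀ v ∈ t, χ (ρ h v) = χ (ρ a v) ∧ χ (ρ h⁻¹ v) = χ (ρ a⁻¹ v)) ∧
      κ (ρ h v₀) (ρ h v₀) = κ (ρ a v₀) (ρ a v₀)
  add : ∀ (R : ℕ → V → Prop), (∀ a b z, a ≤ b → R a z → R b z) → R 0 0 →
    (∀ a b z w, R a z → R b w → R (a + b) (z + w)) → ∀ (A : Set V) (l : ℕ), (∀ z ∈ A, R l z) →
    ∀ z, (∀ θ : V →+ F, θ z ≠ 0 → ∃ a ∈ A, θ a ≠ 0) → R (Λ * l) z
  dim : finrank F V ≤ Λ
  card : Nat.card F ^ (M ^ 2) ≤ Λ

theorem tools_aux [Finite F] [Module.Finite F V] {p e : ℕ} [hp : Fact p.Prime] [CharP F p]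
    [Module (ZMod p) F] [Module (ZMod p) V] (he : Nat.card F = p ^ e) (ρ : Representation F G V) {S : Set G}
    (hS : Subgroup.closure S = ⊤) {M : ℕ} (hM : 1 ≤ M) :
    Tools ρ S M (((finrank F V * e) ^ 2 + 2) ^ (p * (3 * e * M ^ 2))) := by
  classical
  have : Finite V := Module.finite_of_finite F
  have h1p : 1 < p := hp.out.one_lt
  have hF : finrank (ZMod p) F = e := by
    have := Module.natCard_eq_pow_finrank (K := ZMod p) (V := F)
    rw [he, Nat.card_zmod] at this
    exact (Nat.pow_right_injective h1p this).symm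
  have hV : finrank (ZMod p) V = finrank F V * e := by
    have h1 := Module.natCard_eq_pow_finrank (K := ZMod p) (V := V)
    have h2 := Module.natCard_eq_pow_finrank (K := F) (V := V)
    rw [h2, he, Nat.card_zmod, ← pow_mul] at h1
    rw [mul_comm]
    exact (Nat.pow_right_injective h1p h1).symm
  have he1 : 1 ≤ e := by
    rcases Nat.eq_zero_or_pos e with h | h
    · have := Finite.one_lt_card (α := F)
      rw [he, h] at this
      simp at this
    · exact h
  set N := finrank F V * e with hN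
  have hM2 : 1 ≤ M ^ 2 := Nat.one_le_pow _ _ hM
  have hNN : N ≤ N ^ 2 := by nlinarith
  have hbig : N * p ≤ (N ^ 2 + 2) ^ (p * (3 * e * M ^ 2)) := by
    have h1 : p ≤ (N ^ 2 + 2) ^ p :=
      (Nat.lt_two_pow_self (n := p)).le.trans (Nat.pow_le_pow_left (by omega) _)
    have h2 : N * p ≤ (N ^ 2 + 2) ^ (p + 1) := by
      rw [pow_succ']; exact Nat.mul_le_mul (by omega) h1
    refine h2.trans (Nat.pow_le_pow_right (by omega) ?_)
    have : 2 ≤ 3 * e * M ^ 2 := by nlinarith
    nlinarith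
  refine ⟨hS, ?_, ?_, ?_, ?_⟩
  · intro Φ t hΦ ht κ v₀ a
    let b := Module.finBasis (ZMod p) F
    let f : Option (((V →+ F) × V) × Bool) × Fin (finrank (ZMod p) F) → G → ZMod p := fun i g =>
      b.coord i.2 (i.1.elim (κ (ρ g v₀) (ρ g v₀)) fun k => k.1.1 (ρ (cond k.2 g g⁻¹) k.1.2))
    have hrep : ∀ i ∈ (Finset.insertNone ((Φ ×ˢ t) ×ˢ (Finset.univ : Finset Bool))) ×ˢ
        (Finset.univ : Finset (Fin (finrank (ZMod p) F))), Rep (N ^ 2) (f i) := by
      rintro ⟨_ | ⟨⟨χ, v⟩, c⟩, j⟩ -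
      · let Ψ : (V →ₗ[ZMod p] V →ₗ[ZMod p] ZMod p) →ₗ[ZMod p] (G → ZMod p) :=
          { toFun := fun θ g => θ (ρ g v₀) (ρ g v₀)
            map_add' := fun _ _ => rfl
            map_smul' := fun _ _ => rfl }
        have := Rep.of_linear Ψ (fun s θ => ⟨θ.compl₁₂ ((ρ s).toAddMonoidHom.toZModLinearMap p)
          ((ρ s).toAddMonoidHom.toZModLinearMap p), by funext g; simp [Ψ]⟩)
          (AddMonoidHom.toZModLinearMap p
            { toFun := fun x => b.coord j ∘ₗ (κ x).toZModLinearMap p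
              map_zero' := by ext; simp
              map_add' := fun _ _ => by ext; simp })
        rw [Module.finrank_linearMap, Module.finrank_linearMap, hV, finrank_self, mul_one,
          ← sq] at this
        exact this
      cases c with
      | true =>
        let Ψ : Dual (ZMod p) V →ₗ[ZMod p] (G → ZMod p) :=
          { toFun := fun θ g => θ (ρ g v)
            map_add' := fun _ _ => rfl
            map_smul' := fun _ _ => rfl }
        have := Rep.of_linear Ψ (fun s θ => ⟨θ ∘ₗ (ρ s).toAddMonoidHom.toZModLinearMap p, by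
          funext g; simp [Ψ]⟩) (b.coord j ∘ₗ χ.toZModLinearMap p)
        rw [Subspace.dual_finrank_eq, hV] at this
        exact this.mono hNN
      | false =>
        let Ψ : V →ₗ[ZMod p] (G → ZMod p) :=
          { toFun := fun w g => (b.coord j ∘ₗ χ.toZModLinearMap p ∘ₗ
              (ρ g⁻¹).toAddMonoidHom.toZModLinearMap p) w
            map_add' := fun _ _ => by funext g; exact map_add _ _ _
            map_smul' := fun _ _ => by funext g; exact map_smul _ _ _ }
        have := Rep.of_linear Ψ (fun s w => ⟨ρ s⁻¹ w, by funext g; simp [Ψ]⟩) v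
        rw [hV] at this
        exact this.mono hNN
    obtain ⟨h, hh, hf⟩ := mimic_zmod hS _ f hrep a
    refine ⟨h, hh.mono (Nat.pow_le_pow_right (by omega) (Nat.mul_le_mul_left _ ?_)), ?_, ?_⟩
    · simp only [Finset.card_product, Finset.card_univ, Fintype.card_fin,
        Fintype.card_bool, hF, Finset.card_insertNone]
      have := Nat.mul_le_mul hΦ ht
      nlinarith
    · intro χ hχ v hv
      constructor
      · exact b.ext_elem fun j => hf (some ((χ, v), true), j) (by simp [hχ, hv])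
      · exact b.ext_elem fun j => hf (some ((χ, v), false), j) (by simp [hχ, hv])
    · exact b.ext_elem fun j => hf (none, j) (by simp)
  · intro R hmono h0 hadd A l hA z hz
    have hn : ∀ (c : ℕ) (y : V), R l y → R (c * l) (c • y) := by
      intro c y hy
      induction c with
      | zero => simpa using h0
      | succ c ih => rw [Nat.succ_mul, succ_nsmul]; exact hadd _ _ _ _ ih hy
    have hmem : z ∈ Submodule.span (ZMod p) A := by
      by_contra hcon
      obtain ⟨f, hf, hle⟩ := Submodule.exists_le_ker_of_notMem hcon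
      obtain ⟨a, ha, hne⟩ := hz (((ZMod.castHom dvd_rfl F).toAddMonoidHom).comp f.toAddMonoidHom)
        (fun h => hf ((ZMod.castHom dvd_rfl F).injective (h.trans (map_zero _).symm)))
      exact hne (by simp [LinearMap.mem_ker.1 (hle (Submodule.subset_span ha))])
    have := span_short (K := ZMod p) R hmono h0 hadd A (p * l) (fun c y hy => by
      rw [← ZMod.natCast_zmod_val c, Nat.cast_smul_eq_nsmul]
      exact hmono _ _ _ (Nat.mul_le_mul_right _ (ZMod.val_lt c).le) (hn _ _ (hA y hy))) hmem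
    rw [hV, ← mul_assoc] at this
    exact hmono _ _ _ (Nat.mul_le_mul_right _ hbig) this
  · refine le_trans ?_ hbig
    rw [hN, mul_assoc]
    exact Nat.le_mul_of_pos_right _ (by positivity)
  · rw [he, ← pow_mul]
    calc p ^ (e * M ^ 2) ≤ (2 ^ p) ^ (e * M ^ 2) :=
          Nat.pow_le_pow_left (Nat.lt_two_pow_self (n := p)).le _
      _ = 2 ^ (p * (e * M ^ 2)) := by rw [← pow_mul]
      _ ≤ (N ^ 2 + 2) ^ (p * (e * M ^ 2)) := Nat.pow_le_pow_left (by omega) _
      _ ≤ _ := Nat.pow_le_pow_right (by omega) (Nat.mul_le_mul_left _ (by nlinarith))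

theorem tools [Finite F] [Module.Finite F V] {p e : ℕ} [hp : Fact p.Prime] [CharP F p]
    (he : Nat.card F = p ^ e) (ρ : Representation F G V) {S : Set G}
    (hS : Subgroup.closure S = ⊤) {M : ℕ} (hM : 1 ≤ M) :
    Tools ρ S M (((finrank F V * e) ^ 2 + 2) ^ (p * (3 * e * M ^ 2))) :=
  have hpF : ∀ x : F, p • x = 0 := fun x => by simp [nsmul_eq_mul]
  have hpV : ∀ x : V, p • x = 0 := fun x => by
    rw [← Nat.cast_smul_eq_nsmul F, CharP.cast_eq_zero, zero_smul]
  @tools_aux G _ F _ V _ _ _ _ p e _ _ (AddCommGroup.zmodModule hpF) (AddCommGroup.zmodModule hpV)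
    he ρ S hS M hM

namespace Tools

variable {ρ : Representation F G V} {S : Set G} {M Λ : ℕ}

theorem one_le [Finite F] (h : Tools ρ S M Λ) : 1 ≤ Λ :=
  (Nat.one_le_pow _ _ Nat.card_pos).trans h.card

/-- The subspace form of the copying tool. -/
theorem mimic₃ (h : Tools ρ S M Λ) {σ : F →+* F} {P : Type*} [AddCommGroup P] [Module F P]
    [Module.Finite F P] [Module.Finite F V] (β : P →ₗ[F] V →ₛₗ[σ] F) (W₁ : Submodule F P)
    (W₂ : Submodule F V) (h₁ : finrank F W₁ + 1 ≤ M) (h₂ : finrank F W₂ + 1 ≤ M) (θ : V →+ F)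
    (κ : V →+ V →+ F) (v : V) (a : G) : ∃ g, Len S Λ g ∧ (∀ x ∈ W₁, ∀ w ∈ W₂,
      β x (ρ g w) = β x (ρ a w) ∧ β x (ρ g⁻¹ w) = β x (ρ a⁻¹ w)) ∧ θ (ρ g v) = θ (ρ a v) ∧
      κ (ρ g v) (ρ g v) = κ (ρ a v) (ρ a v) := by
  classical
  obtain ⟨t₁, -, c₁, s₁, -⟩ := Submodule.exists_finset_span_eq_linearIndepOn F (W₁ : Set P)
  obtain ⟨t₂, -, c₂, s₂, -⟩ := Submodule.exists_finset_span_eq_linearIndepOn F (W₂ : Set V)
  rw [Submodule.span_eq] at c₁ s₁ c₂ s₂
  obtain ⟨g, hg, hh, hκ⟩ := h.mimic (insert θ (t₁.image fun x => (β x).toAddMonoidHom)) (insert v t₂)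
    ((Finset.card_insert_le _ _).trans ((Nat.succ_le_succ Finset.card_image_le).trans (by omega)))
    ((Finset.card_insert_le _ _).trans (by omega)) κ v a
  refine ⟨g, hg, ?_, (hh θ (by simp) v (by simp)).1, hκ⟩
  intro x hx w hw
  rw [← s₁] at hx
  rw [← s₂] at hw
  induction hx using Submodule.span_induction with
  | mem x hx =>
    induction hw using Submodule.span_induction with
    | mem w hw =>
      exact hh (β x).toAddMonoidHom (Finset.mem_insert_of_mem (Finset.mem_image_of_mem _ hx)) w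
        (Finset.mem_insert_of_mem hw)
    | zero => simp
    | add y z _ _ hy hz => simp [hy.1, hy.2, hz.1, hz.2]
    | smul c y _ hy => simp [map_smulₛₗ, hy.1, hy.2]
  | zero => simp
  | add y z _ _ hy hz => simp [hy.1, hy.2, hz.1, hz.2]
  | smul c y _ hy => simp [hy.1, hy.2]

theorem mimic₂ (h : Tools ρ S M Λ) {σ : F →+* F} {P : Type*} [AddCommGroup P] [Module F P]
    [Module.Finite F P] [Module.Finite F V] (β : P →ₗ[F] V →ₛₗ[σ] F) (W₁ : Submodule F P)
    (W₂ : Submodule F V) (h₁ : finrank F W₁ + 1 ≤ M) (h₂ : finrank F W₂ + 1 ≤ M) (θ : V →+ F)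
    (v : V) (a : G) : ∃ g, Len S Λ g ∧ (∀ x ∈ W₁, ∀ w ∈ W₂, β x (ρ g w) = β x (ρ a w) ∧
      β x (ρ g⁻¹ w) = β x (ρ a⁻¹ w)) ∧ θ (ρ g v) = θ (ρ a v) :=
  (h.mimic₃ β W₁ W₂ h₁ h₂ θ 0 v a).imp fun _ h => ⟨h.1, h.2.1, h.2.2.1⟩

end Tools

end Pool.Agent.P.MP_bed792_al
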